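import Pool.Agent.Helper11_MWT.TG3b
import Pool.Agent.Helper10_MWT.PER
import Pool.Agent.Helper77_MWT.THX
import Pool.Agent.Helper27_MWT.PJB
import Pool.Agent.Helper52_MWT.PJL
import Pool.Agent.Helper1_MWT.KPJ
import Pool.Agent.Helper89_MWT.SHW
import Pool.Agent.Helper62_MWT.SPC
import Pool.Agent.Helper85_MWT.TG1
import Pool.Agent.Helper95_MWT.TG2
import Pool.Agent.Helper43_MWT.TGW
import Pool.Agent.Helper49_MWT.LWC
import Pool.Agent.Helper81_MWT.NLC
import Pool.Agent.Helper59_MWT.CTB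
import Pool.Agent.Helper19_MWT.CVA
import Pool.Agent.Helper28_MWT.CVB
import Pool.Agent.Helper2_MWT.NLF
import Pool.Agent.Helper73_MWT.CVC
import Pool.Agent.Helper50_MWT.CVD
import Pool.Agent.Helper15_MWT.CVE
import Pool.Agent.Helper61_MWT.CVR
import Pool.Agent.Helper30_MWT.CVL
import Pool.Agent.Helper34_MWT.CVX
import Pool.Agent.Helper26_MWT.CVY
import Pool.Agent.Helper19_MWT.SWX
import Pool.Agent.Helper36_MWT.NSL
import Pool.Agent.Helper47_MWT.PWX
import Pool.Agent.Helper80_MWT.STX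
import Pool.Agent.Helper23_MWT.STY
import Pool.Agent.Helper23_MWT.STB
import Pool.Agent.Helper92_MWT.NW4
import Pool.Agent.Helper79_MWT.PNT

/-!
# Squad MWT: composition

Thin runs over `x²y² ≈ y²x²`, `xtxsx ≈ x^(n+1)tx^(n+1)sx^(n+1)`: there is no word which satisfies the
situation `S7`.
-/

set_option autoImplicit false

namespace Pool.Agent.MWT.H11

open Pool.Agent.Helper14_MV Pool.Agent.Helper2_MV Pool.Agent.MVD Pool.Agent.MWT

theorem perF : PerStmt := H10.per
theorem thxF : ThxStmt := H77.thx perF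
theorem pjbF : PjbStmt := H27.pjb
theorem pjlF : PjlStmt := H52.pjl
theorem kpjF : KpjStmt := H1.kpj
theorem shwF : ShwStmt := H89.shw
theorem spcF : SpcStmt := H62.spc
theorem tg1F : Tg1Stmt := H85.tg1 perF
theorem tg2F : Tg2Stmt := H95.tg2 funT thxF pjbF pjlF perF
theorem tg3F : Tg3Stmt := H11b.tg3b thxF pjbF pjlF perF spcF tg2F
theorem tgwF : TgwStmt := H43.tgw tg1F tg2F tg3F perF
theorem lwcF : LwcStmt := H49.lwc
theorem nlcF : NlcStmt := H81.nlc
theorem ctbF : CtbStmt := H59.ctb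
theorem cvaF : CvaStmt := H19.cva perF lwcF
theorem cvbF : CvbStmt := H28.cvb perF lwcF cvaF
theorem nlfF : NlfStmt := H2.nlf
theorem cvcF : CvcStmt := H73.cvc nlcF ctbF nlfF
theorem cvdF : CvdStmt := H50.cvd cvcF ctbF
theorem cveF : CveStmt := H15.cve
theorem cvrF : CvrStmt := H61.cvr cvcF cvdF ctbF nlcF nlfF
theorem cvlF : CvlStmt := H30.cvl cvcF cvdF ctbF nlcF nlfF
theorem cvxF : CvxStmt := H34.cvx lwcF cvaF cvbF cvdF cveF cvrF
theorem cvyF : CvyStmt := H26.cvy lwcF cvaF cvbF cvdF cveF cvlF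
theorem swxF : SwxStmt := H19.swx perF
theorem nslF : NslStmt := H36.nsl perF lwcF
theorem pwxF : PwxStmt := H47.pwx swxF
theorem stxF : StxStmt := H80.stx tgwF kpjF cvxF swxF nslF pwxF
theorem styF : StyStmt := H23.sty tgwF kpjF cvyF swxF nslF pwxF
theorem stbF : StbStmt := H23.stb tgwF kpjF cvxF swxF nslF pwxF
theorem nw4F : Nw4Stmt := H92.nw4 pjbF pjlF thxF shwF

/-- **No word is in the situation of the induction step.** -/
theorem pntF : PntStmt := H79.pnt swxF shwF stxF styF stbF nw4F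

end Pool.Agent.MWT.H11
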