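import Pool.Agent.Helper11_MWT.BS

/-!
# Squad MWT, row FUN: both thin letters are in the main block and enclose all letters
-/

set_option autoImplicit false

namespace Pool.Agent.MWT.H11

open Pool.Agent.Helper14_MV Pool.Agent.Helper2_MV Pool.Agent.MVD Pool.Agent.MWT

variable {n m : ℕ} {β : FIC} {R c : List ℕ} {pl : ℕ → List ℕ}

/-- the situation (only the words with less lights or with one marker less are used) -/
structure Sx (n : ℕ) (β : FIC) (m : ℕ) (R : List ℕ) (pl : ℕ → List ℕ) (c : List ℕ) : Prop where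
  wo : Wo n β
  lt : ∀ m' < m, Helper96_MWV.LfBm n m' β
  h2 : ∀ a ∈ c, a % 3 = 0 → Th n β R pl (dl a c)
  cn : Cn n m c
  m1 : 1 ≤ m
  k2 : 2 ≤ nd c
  pc : Pl m R pl
  no : ¬ Th n β R pl c

theorem dl_app (a : ℕ) (u v : List ℕ) : dl a (u ++ v) = dl a u ++ dl a v := List.filter_append ..

theorem dl_id {a : ℕ} {u : List ℕ} (h : a ∉ u) : dl a u = u := by
  unfold dl
  rw [List.filter_eq_self]
  intro b hb
  rw [decide_eq_true_eq]
  rintro rfl
  exact h hb

theorem mem_dl {a b : ℕ} {u : List ℕ} : b ∈ dl a u ↔ b ∈ u ∧ b ≠ a := by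
  unfold dl
  rw [List.mem_filter, decide_eq_true_eq]

theorem dl_P (a k : ℕ) : dl a (P k a) = [] := by
  unfold dl
  rw [List.filter_eq_nil_iff]
  intro b hb
  rw [List.eq_of_mem_replicate hb]
  simp

/-! ### a light is missing: thick -/

theorem light_missing (S : Sx n β m R pl c) {v X U Y : List ℕ}
    (hv : RR β (Bp R pl (0 :: (c ++ [0]))) v) (e : v = X ++ 0 :: (U ++ 0 :: Y))
    (hX : 0 ∉ X) (hU : 0 ∉ U) (hY : 0 ∉ Y)
    (hl : ∀ a ∈ U, Hm a = true ∨ ∃ d < m, a = 3 * d + 1)
    (h1 : ∀ d < m, U.count (3 * d + 1) ≤ 1)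
    (ho : ∀ d < m, 3 * d + 1 ∈ U → 3 * d + 1 ∈ X ∨ 3 * d + 1 ∈ Y) {d : ℕ} (hd : d < m)
    (hdU : 3 * d + 1 ∉ U) : False := by
  apply S.no
  have hdh := dh_v S.wo S.cn S.pc hv
  rw [e] at hdh hv
  refine th_of (fun a ha => (cn_mem S.cn ha).1) S.pc (tr hv hdh) ?_
  have hf : ∀ a ∈ U.filter (fun b => !Hm b), ∃ d' < m, a = 3 * d' + 1 ∧ d' ≠ d := by
    intro a ha
    rw [List.mem_filter] at ha
    rcases hl a ha.1 with h | ⟨d', hd', rfl⟩
    · rw [h] at ha
      simp at ha
    · refine ⟨d', hd', rfl, ?_⟩
      rintro rfl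
      exact hdU ha.1
  have hnd : (U.filter (fun b => !Hm b)).Nodup := by
    rw [List.nodup_iff_count_le_one]
    intro a
    by_cases ha : a ∈ U.filter (fun b => !Hm b)
    · obtain ⟨d', hd', rfl, _⟩ := hf a ha
      exact le_trans (List.Sublist.count_le _ List.filter_sublist) (h1 d' hd')
    · rw [List.count_eq_zero_of_not_mem ha]
      omega
  have hlen : (U.filter (fun b => !Hm b)).length < m := by
    have hs : ∀ a ∈ U.filter (fun b => !Hm b),
        a ∈ ((Finset.range m).erase d).image (fun i => 3 * i + 1) := by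
      intro a ha
      obtain ⟨d', hd', rfl, hne⟩ := hf a ha
      exact Finset.mem_image.2 ⟨d', Finset.mem_erase.2 ⟨hne, Finset.mem_range.2 hd'⟩, rfl⟩
    have h2 : (U.filter (fun b => !Hm b)).length ≤
        (((Finset.range m).erase d).image (fun i => 3 * i + 1)).card := by
      rw [← List.toFinset_card_of_nodup hnd]
      exact Finset.card_le_card (fun a ha => hs a (List.mem_toFinset.1 ha))
    have h3 : (((Finset.range m).erase d).image (fun i => 3 * i + 1)).card ≤
        ((Finset.range m).erase d).card := Finset.card_image_le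
    rw [Finset.card_erase_of_mem (Finset.mem_range.2 hd), Finset.card_range] at h3
    omega
  have hnH : ∀ {a : ℕ}, Hm a = false → ∀ {w : List ℕ}, a ∈ w →
      a ∈ Helper96_MWV.DH n Hm w := fun h _ ha => Helper96_MWV.DH_mem h ha
  have key := Helper96_MWV.lt1 S.wo.ap S.wo.hn S.wo.cm S.lt Hm (Helper96_MWV.DH n Hm X) U
    (Helper96_MWV.DH n Hm Y) 0 hU hnd hlen (by
      intro a ha hH
      rcases hl a ha with h | ⟨d', hd', rfl⟩
      · rw [h] at hH
        exact absurd hH (by simp)
      · rcases ho d' hd' ha with h | h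
        · exact Or.inl (hnH hH h)
        · exact Or.inr (hnH hH h))
  have e0 : Helper96_MWV.DH n Hm [0] = [0] := Helper96_MWV.DH_id n Hm [0] (by
    intro a ha
    rw [List.mem_singleton] at ha
    rw [hm_f]
    omega)
  have m0 : ∀ {w : List ℕ}, 0 ∉ w → 0 ∉ Helper96_MWV.DH n Hm w := by
    intro w hw h
    unfold Helper96_MWV.DH at h
    rw [List.mem_flatMap] at h
    obtain ⟨a, ha, h'⟩ := h
    by_cases hH : Hm a = true
    · rw [if_pos hH] at h'
      exact hw ((List.eq_of_mem_replicate h') ▸ ha)
    · rw [if_neg hH, List.mem_singleton] at h'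
      exact hw (h' ▸ ha)
  have e1 : Helper96_MWV.DH n Hm (X ++ 0 :: (U ++ 0 :: Y)) = Helper96_MWV.DH n Hm X ++
      ([0] ++ (Helper96_MWV.DH n Hm U ++ ([0] ++ Helper96_MWV.DH n Hm Y))) := by
    have e2 : X ++ 0 :: (U ++ 0 :: Y) = X ++ ([0] ++ (U ++ ([0] ++ Y))) := rfl
    rw [e2, Helper96_MWV.DH_app, Helper96_MWV.DH_app, Helper96_MWV.DH_app, Helper96_MWV.DH_app, e0]
  rw [e1, Helper96_MWV.hv_app, Helper96_MWV.hv_app, Helper96_MWV.hv_app, Helper96_MWV.hv_app,
    Helper96_MWV.hv_one, Helper96_MWV.hv_id n 0 _ (m0 hX), Helper96_MWV.hv_id n 0 _ (m0 hU),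
    Helper96_MWV.hv_id n 0 _ (m0 hY)]
  exact key

/-! ### `x²t ≈ tx²`: markers commute -/

theorem sq_co (hw : Wo n β) (hq : SQ β) (p q : List ℕ) {a b : ℕ} (hab : b ≠ a)
    (hb : b ∈ p ∨ b ∈ q) :
    RR β (p ++ (P (n + 1) a ++ b :: q)) (p ++ b :: (P (n + 1) a ++ q)) := by
  have hn := hw.hn
  -- central powers
  have hcen : RR β (P (2 * n) a ++ [b]) (b :: P (2 * n) a) := by
    have h := hq.sub (fun i => if i = 0 then P n a else [b])
    have e1 : ([0, 0, 2] : List ℕ).flatMap (fun i => if i = 0 then P n a else [b]) =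
        P (2 * n) a ++ [b] := by
      have f : P (2 * n) a = P n a ++ P n a := by
        rw [two_mul]
        exact List.replicate_add n n a
      rw [f]
      change P n a ++ (P n a ++ ([b] ++ [])) = _
      rw [List.append_nil, List.append_assoc]
    have e2 : ([2, 0, 0] : List ℕ).flatMap (fun i => if i = 0 then P n a else [b]) =
        b :: P (2 * n) a := by
      have f : P (2 * n) a = P n a ++ P n a := by
        rw [two_mul]
        exact List.replicate_add n n a
      rw [f]
      change [b] ++ (P n a ++ (P n a ++ [])) = _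
      rw [List.append_nil]
      rfl
    rw [e1, e2] at h
    exact h
  -- shifts
  have hsh : ∀ i j p q, 1 ≤ i → 1 ≤ j → b ∈ p ∨ b ∈ q →
      RR β (p ++ (P (i + 1) a ++ b :: (P j a ++ q))) (p ++ (P i a ++ b :: (P (j + 1) a ++ q))) := by
    intro i j p q hi hj hb
    obtain ⟨i, rfl⟩ : ∃ i', i = i' + 1 := ⟨i - 1, by omega⟩
    obtain ⟨j, rfl⟩ : ∃ j', j = j' + 1 := ⟨j - 1, by omega⟩
    have h := Helper96_MWV.sh1 hw.sr hw.sl (p ++ P i a) (P j a ++ q) a b hab (by
      have h1 : [b].count b = 1 := by simp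
      rcases hb with h | h
      · have h2 := List.count_pos_iff.2 h
        simp only [List.count_append]
        omega
      · have h2 := List.count_pos_iff.2 h
        simp only [List.count_append]
        omega)
    have e1 : (p ++ P i a) ++ (P 2 a ++ ([b] ++ (P 1 a ++ (P j a ++ q)))) =
        p ++ (P (i + 1 + 1) a ++ b :: (P (j + 1) a ++ q)) := by
      have f1 : P (i + 1 + 1) a = P i a ++ P 2 a := (List.replicate_add i 2 a)
      have f2 : P (j + 1) a = P 1 a ++ P j a := by
        rw [Nat.add_comm]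
        exact (List.replicate_add 1 j a)
      rw [f1, f2]
      simp only [List.append_assoc, List.singleton_append]
    have e2 : (p ++ P i a) ++ (P 1 a ++ ([b] ++ (P 2 a ++ (P j a ++ q)))) =
        p ++ (P (i + 1) a ++ b :: (P (j + 1 + 1) a ++ q)) := by
      have f1 : P (i + 1) a = P i a ++ P 1 a := (List.replicate_add i 1 a)
      have f2 : P (j + 1 + 1) a = P 2 a ++ P j a := by
        have : j + 1 + 1 = 2 + j := by omega
        rw [this]
        exact (List.replicate_add 2 j a)
      rw [f1, f2]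
      simp only [List.append_assoc, List.singleton_append]
    rw [e1, e2] at h
    exact h
  have hshk : ∀ k i j, 1 ≤ i → 1 ≤ j →
      RR β (p ++ (P (i + k) a ++ b :: (P j a ++ q))) (p ++ (P i a ++ b :: (P (j + k) a ++ q))) := by
    intro k
    induction k with
    | zero => intro i j _ _; exact RR.refl _
    | succ k ih =>
      intro i j hi hj
      have h1 := hsh (i + k) j p q (by omega) hj hb
      have h2 := ih i (j + 1) hi (by omega)
      have e1 : i + (k + 1) = i + k + 1 := by omega
      have e2 : j + (k + 1) = j + 1 + k := by omega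
      rw [e1, e2]
      exact tr h1 h2
  have s1 : RR β (p ++ (P (n + 1) a ++ b :: q)) (p ++ (P (n + 1 + 2 * n) a ++ b :: q)) :=
    Helper96_MWV.pc hw.ap p (b :: q) a (n + 1) (n + 1 + 2 * n) (by omega) ⟨2, rfl⟩
  have s2 : RR β (p ++ (P (n + 1 + 2 * n) a ++ b :: q))
      (p ++ (P (n + 1) a ++ b :: (P (2 * n) a ++ q))) := by
    have h := Helper96_MWV.cx (p ++ P (n + 1) a) q hcen
    have f1 : P (n + 1 + 2 * n) a = P (n + 1) a ++ P (2 * n) a := List.replicate_add _ _ a
    rw [f1]
    simpa only [List.append_assoc, List.cons_append, List.singleton_append, List.nil_append] using h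
  have s3 : RR β (p ++ (P (n + 1) a ++ b :: (P (2 * n) a ++ q)))
      (p ++ (P (2 * n) a ++ b :: (P (n + 1) a ++ q))) := by
    have h := (hshk (n - 1) (n + 1) (n + 1) (by omega) (by omega)).symm
    have e1 : n + 1 + (n - 1) = 2 * n := by omega
    rw [e1] at h
    exact h
  have s4 : RR β (p ++ (P (2 * n) a ++ b :: (P (n + 1) a ++ q)))
      (p ++ b :: (P (n + 1 + 2 * n) a ++ q)) := by
    have h := Helper96_MWV.cx p (P (n + 1) a ++ q) hcen
    have f1 : P (n + 1 + 2 * n) a = P (2 * n) a ++ P (n + 1) a := by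
      rw [Nat.add_comm]
      exact List.replicate_add _ _ a
    rw [f1]
    simpa only [List.append_assoc, List.cons_append, List.singleton_append, List.nil_append] using h
  have s5 : RR β (p ++ b :: (P (n + 1 + 2 * n) a ++ q)) (p ++ b :: (P (n + 1) a ++ q)) := by
    have h := (Helper96_MWV.pc hw.ap (p ++ [b]) q a (n + 1) (n + 1 + 2 * n) (by omega) ⟨2, rfl⟩).symm
    simpa only [List.append_assoc, List.cons_append, List.singleton_append, List.nil_append] using h
  exact tr s1 (tr s2 (tr s3 (tr s4 s5)))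

theorem sq_mv (hw : Wo n β) (hq : SQ β) {a : ℕ} : ∀ (A p q : List ℕ),
    (∀ b ∈ A, b ≠ a ∧ 2 ≤ (p ++ (A ++ q)).count b) →
      RR β (p ++ (P (n + 1) a ++ (A ++ q))) (p ++ (A ++ (P (n + 1) a ++ q)))
  | [], _, _, _ => RR.refl _
  | b :: A, p, q, h => by
    have h1 := h b List.mem_cons_self
    have hb : b ∈ p ∨ b ∈ A ++ q := by
      by_contra hcon
      rw [not_or] at hcon
      have h2 := h1.2
      have e : (p ++ (b :: A ++ q)).count b = p.count b + 1 + (A ++ q).count b := by
        rw [List.cons_append, List.count_append, List.count_cons_self]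
        omega
      rw [e, List.count_eq_zero_of_not_mem hcon.1, List.count_eq_zero_of_not_mem hcon.2] at h2
      omega
    have s1 := sq_co hw hq p (A ++ q) h1.1 hb
    have s2 := sq_mv hw hq A (p ++ [b]) q (by
      intro d hd
      have h3 := h d (List.mem_cons_of_mem _ hd)
      refine ⟨h3.1, ?_⟩
      have e : p ++ [b] ++ (A ++ q) = p ++ (b :: A ++ q) := by simp
      rw [e]
      exact h3.2)
    have e1 : p ++ [b] ++ (P (n + 1) a ++ (A ++ q)) = p ++ b :: (P (n + 1) a ++ (A ++ q)) := by simp
    have e2 : p ++ [b] ++ (A ++ (P (n + 1) a ++ q)) = p ++ (b :: A ++ (P (n + 1) a ++ q)) := by simp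
    rw [e1, e2] at s2
    exact tr s1 s2

/-- insertion of a word at the left end of the main block -/
theorem ins_left (hp : Pl m R pl) {L L' u : List ℕ} (hL : SFr L) (hL' : SFr L')
    (h : RR β (Bp R pl L) (Bp R pl L')) : RR β (Bp R pl (u ++ L)) (Bp R pl (u ++ L')) := by
  have hs : ∀ M : List ℕ, SFr M → ∀ r ∈ R, SFr (Bb pl M r) := by
    intro M hM r hr
    unfold Bb
    by_cases h0 : r = 0
    · rw [if_pos h0]
      exact hM
    · rw [if_neg h0]
      intro a ha
      obtain ⟨d, _, rfl⟩ := pl_mem hp hr h0 ha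
      omega
  have h1 := MWE.H11.trg β R (Bb pl L) (Bb pl L') (fun r => if r = 0 then u else [])
    (fun _ => []) [] hp.nd (hs L hL) (hs L' hL') (fun a ha => absurd ha List.not_mem_nil)
    (by rw [List.append_nil]; exact h)
  rw [List.append_nil] at h1
  have e : ∀ M : List ℕ, Bw R (fun r => (if r = 0 then u else []) ++ (Bb pl M r ++ [])) =
      Bp R pl (u ++ M) := by
    intro M
    rw [bp_eq]
    apply bw_eq
    intro r _
    unfold Bb
    by_cases h0 : r = 0
    · rw [if_pos h0, if_pos h0, if_pos h0, List.append_nil]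
    · rw [if_neg h0, if_neg h0, if_neg h0, List.append_nil, List.nil_append]
  rw [e, e] at h1
  exact h1

theorem sfr_P (k a : ℕ) (ha : a % 3 ≠ 2) : SFr (P k a) := by
  intro b hb
  rw [List.eq_of_mem_replicate hb]
  exact ha

theorem sfr_c (hc : Cn n m c) : SFr c := fun _ ha => (cn_mem hc ha).2.2

theorem sfr_app {u v : List ℕ} (hu : SFr u) (hv : SFr v) : SFr (u ++ v) := by
  intro a ha
  rcases List.mem_append.1 ha with h | h
  · exact hu a h
  · exact hv a h

/-- a marker -/
theorem ex_marker (S : Sx n β m R pl c) (hm : m = 1) : ∃ a ∈ c, a % 3 = 0 := by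
  by_contra hno
  push Not at hno
  have hsub : c.toFinset ⊆ {1} := by
    intro a ha
    rw [List.mem_toFinset] at ha
    rcases S.cn.lo a ha with ⟨d, hd, rfl⟩ | ⟨h3, _⟩
    · rw [Finset.mem_singleton]
      omega
    · exact absurd h3 (hno a ha)
  have h1 := Finset.card_le_card hsub
  have h2 := S.k2
  unfold nd at h2
  rw [Finset.card_singleton] at h1
  omega

/-- with `x²t ≈ tx²` and one light the word is thick -/
theorem sq_one (S : Sx n β m R pl c) (hq : SQ β) (hm : m = 1) : False := by
  obtain ⟨a, ha, ha3⟩ := ex_marker S hm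
  apply S.no
  obtain ⟨A, C, e, hA, hC⟩ := S.cn.bl a ha ha3
  obtain ⟨R1, R2, eR, h1, h2, hsp⟩ := bp_split S.pc
  have hal := cn_mem S.cn ha
  have edl : dl a c = A ++ C := by
    rw [e, dl_app, dl_app, dl_id hA, dl_id hC, dl_P, List.nil_append]
  have hmove : ∀ k, 1 ≤ k → RR β (Bp R pl (P k 0 ++ (c ++ P k 0)))
      (Bp R pl (P (n + 1) a ++ (P k 0 ++ (dl a c ++ P k 0)))) := by
    intro k hk
    rw [hsp, hsp, edl, e]
    have h := (sq_mv S.wo hq (a := a) (P k 0 ++ A) (Bw R1 pl)
      (C ++ (P k 0 ++ 2 :: Bw R2 pl)) ?_).symm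
    · simpa only [List.append_assoc, List.cons_append, List.nil_append] using h
    · intro b hb
      rcases List.mem_append.1 hb with hb | hb
      · rw [List.eq_of_mem_replicate hb]
        refine ⟨fun h => hal.1 h.symm, ?_⟩
        simp only [List.count_append, List.count_cons, List.count_replicate_self]
        omega
      · have hba : b ≠ a := by
          rintro rfl
          exact hA hb
        refine ⟨hba, ?_⟩
        have hbc : b ∈ c := by rw [e]; simp [hb]
        rcases S.cn.lo b hbc with ⟨d, hd, rfl⟩ | ⟨hb3, hb6⟩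
        · -- a light
          obtain ⟨r, hr, hr0, hrp, _⟩ := S.pc.ex d hd
          have hmem : 3 * d + 1 ∈ Bw R1 pl ∨ 3 * d + 1 ∈ Bw R2 pl := by
            rw [eR] at hr
            rcases List.mem_append.1 hr with h | h
            · exact Or.inl (MWE.H10.mem_bw.2 ⟨r, h, Or.inl (by rw [hrp]; simp)⟩)
            · rcases List.mem_cons.1 h with h | h
              · exact absurd h hr0
              · exact Or.inr (MWE.H10.mem_bw.2 ⟨r, h, Or.inl (by rw [hrp]; simp)⟩)
          have hbA := List.count_pos_iff.2 hb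
          rcases hmem with h | h
          · have := List.count_pos_iff.2 h
            simp only [List.count_append, List.count_cons]
            omega
          · have := List.count_pos_iff.2 h
            simp only [List.count_append, List.count_cons]
            omega
        · obtain ⟨A', C', e', hA', hC'⟩ := S.cn.bl b hbc hb3
          have hcnt : c.count b = n + 1 := by
            rw [e', List.count_append, List.count_append, List.count_replicate_self,
              List.count_eq_zero_of_not_mem hA', List.count_eq_zero_of_not_mem hC']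
            omega
          have hcnt2 : c.count b = A.count b + C.count b := by
            rw [e, List.count_append, List.count_append]
            have : (List.replicate (n + 1) a).count b = 0 := by
              rw [List.count_eq_zero]
              intro h
              exact hba (List.eq_of_mem_replicate h)
            omega
          have hn := S.wo.hn
          simp only [List.count_append, List.count_cons]
          omega
  have hsd : SFr (dl a c) := fun b hb => sfr_c S.cn b (mem_dl.1 hb).1
  have hth := S.h2 a ha ha3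
  unfold Th at hth ⊢
  have i1 := ins_left S.pc (u := P (n + 1) a) (L := 0 :: (dl a c ++ [0]))
    (L' := P (n + 1) 0 ++ (dl a c ++ P (n + 1) 0))
    (sfr_app (u := P 1 0) (sfr_P 1 0 (by omega)) (sfr_app hsd (sfr_P 1 0 (by omega))))
    (sfr_app (sfr_P _ 0 (by omega)) (sfr_app hsd (sfr_P _ 0 (by omega)))) hth
  have s1 := hmove 1 le_rfl
  have s2 := hmove (n + 1) (by omega)
  exact tr s1 (tr i1 s2.symm)

end Pool.Agent.MWT.H11
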