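import Pool.Agent.Helper11_MWT.ASM
import Pool.Agent.Helper96_MWV.Out2
import Pool.Agent.Helper29_MWV.ASM

/-!
# World A: `It2 n` for all periods (MP_23468a_al)

`x²y² ≈ y²x²`, `xtxsx ≈ x^(n+1)tx^(n+1)sx^(n+1)`: the two families `I1`, `I2` for all words.
-/

set_option autoImplicit false

namespace Pool.Agent.MWT.H11

/-- **`It2 n`, all `n`.** -/
theorem it2F (n : ℕ) : Helper61_MWD.It2 n := Helper96_MWV.it2p pntF MWV.H29.rfil

end Pool.Agent.MWT.H11
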