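import Pool.Agent.Helper11_MWT.FUN2

/-!
# Squad MWT, row NES (blocks of local letters are not cut): a thin letter which encloses less letters
never encloses a thin letter which encloses all letters
-/

set_option autoImplicit false

namespace Pool.Agent.MWT.H11

open Pool.Agent.Helper14_MV Pool.Agent.Helper2_MV Pool.Agent.MVD Pool.Agent.MWT

variable {n m : ℕ} {β : FIC} {R c : List ℕ} {pl : ℕ → List ℕ}

/-! ### heavy words -/

theorem hp_comm (hw : Wo n β) {u : List ℕ} (w : List ℕ) (hu : ∀ a ∈ u, Hm a = true) :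
    Helper96_MWV.Co β (Helper96_MWV.hp n u) (Helper96_MWV.hp n w) := by
  induction u with
  | nil => exact (Helper96_MWV.Co.nil _).symm
  | cons a u ih =>
    have h1 := (Helper96_MWV.hp_co hw.cm a w).symm
    have h2 := (ih (fun b hb => hu b (List.mem_cons_of_mem _ hb))).symm
    exact (h1.app h2).symm

theorem dh_comm (hw : Wo n β) {u w : List ℕ} (hu : ∀ a ∈ u, Hm a = true)
    (hw' : ∀ a ∈ w, Hm a = true) (p q : List ℕ) :
    RR β (Helper96_MWV.DH n Hm (p ++ (u ++ (w ++ q)))) (Helper96_MWV.DH n Hm (p ++ (w ++ (u ++ q)))) := by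
  simp only [Helper96_MWV.DH_app]
  rw [dh_hp hu, dh_hp hw']
  have h := hp_comm hw w hu
  unfold Helper96_MWV.Co at h
  have h1 := Helper96_MWV.cx (Helper96_MWV.DH n Hm p) (Helper96_MWV.DH n Hm q) h
  simpa only [List.append_assoc] using h1

/-- `d^n` for all letters `d` -/
def Dw (n : ℕ) (t : List ℕ) : List ℕ := t.flatMap (fun d => P n d)

theorem dw_mem {t : List ℕ} {a : ℕ} (h : a ∈ Dw n t) : a ∈ t := by
  unfold Dw at h
  rw [List.mem_flatMap] at h
  obtain ⟨b, hb, h'⟩ := h
  rw [List.eq_of_mem_replicate h']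
  exact hb

theorem dw_cons (d : ℕ) (t : List ℕ) : Dw n (d :: t) = P n d ++ Dw n t := rfl

theorem dw_app (t u : List ℕ) : Dw n (t ++ u) = Dw n t ++ Dw n u := List.flatMap_append

theorem dw_one (d : ℕ) : Dw n [d] = P n d := by
  change P n d ++ [] = _
  rw [List.append_nil]

/-- absorption -/
theorem absorb (hw : Wo n β) {w : List ℕ} (hh : ∀ a ∈ w, Hm a = true) : ∀ t : List ℕ,
    (∀ a ∈ t, a ∈ w) → RR β (Helper96_MWV.DH n Hm (Dw n t) ++ Helper96_MWV.DH n Hm w)
      (Helper96_MWV.DH n Hm w)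
  | [], _ => RR.refl _
  | d :: t, h => by
    have ih := absorb hw hh t (fun a ha => h a (List.mem_cons_of_mem _ ha))
    have hd := h d List.mem_cons_self
    rw [dw_cons, Helper96_MWV.DH_app, Helper96_MWV.DH_P n Hm n d (hh d hd), List.append_assoc]
    have h1 := (RR.refl (P (n * (n + 1)) d)).append ih
    have h2 := pull_l hw d w hh
    have h3 := (RR.refl (P (n * (n + 1)) d)).append h2
    have hc := List.count_pos_iff.2 hd
    have hn := hw.hn
    have h5 : n * (n + 1) + w.count d * (n + 1) = w.count d * (n + 1) + (n + 1) * n := by ring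
    have h4 : RR β (P (n * (n + 1)) d ++ (P (w.count d * (n + 1)) d ++
        Helper96_MWV.DH n Hm (dl d w))) (P (w.count d * (n + 1)) d ++
        Helper96_MWV.DH n Hm (dl d w)) := by
      rw [Helper96_MWV.mg, h5]
      have h6 := (Helper96_MWV.pwk hw.ap d (w.count d * (n + 1)) (n + 1)
        (by nlinarith)).symm
      exact h6.append (RR.refl _)
    exact tr h1 (tr h3 (tr h4 h2.symm))

theorem absorb_r (hw : Wo n β) {w : List ℕ} (hh : ∀ a ∈ w, Hm a = true) (t : List ℕ)
    (ht : ∀ a ∈ t, a ∈ w) : RR β (Helper96_MWV.DH n Hm w ++ Helper96_MWV.DH n Hm (Dw n t))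
      (Helper96_MWV.DH n Hm w) := by
  have h1 := absorb hw hh t ht
  have h2 : RR β (Helper96_MWV.DH n Hm w ++ Helper96_MWV.DH n Hm (Dw n t))
      (Helper96_MWV.DH n Hm (Dw n t) ++ Helper96_MWV.DH n Hm w) := by
    rw [dh_hp hh, dh_hp (fun a ha => hh a (ht a (dw_mem ha)))]
    exact hp_comm hw (Dw n t) hh
  exact tr h2 h1

/-! ### moving a marker over the thin letter `3` -/

theorem shift3 (hw : Wo n β) {d : ℕ} (hd : d ≠ 3) (p q : List ℕ) (h3 : 3 ∈ p ∨ 3 ∈ q) :
    RR β (p ++ (P (n * (n + 1)) d ++ 3 :: (P (n + 1) d ++ q)))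
      (p ++ (P (n + 1) d ++ 3 :: (P (n * (n + 1)) d ++ q))) := by
  have hn := hw.hn
  have hsh : ∀ i j p q, 1 ≤ i → 1 ≤ j → 3 ∈ p ∨ 3 ∈ q →
      RR β (p ++ (P (i + 1) d ++ 3 :: (P j d ++ q))) (p ++ (P i d ++ 3 :: (P (j + 1) d ++ q))) := by
    intro i j p q hi hj hb
    obtain ⟨i, rfl⟩ : ∃ i', i = i' + 1 := ⟨i - 1, by omega⟩
    obtain ⟨j, rfl⟩ : ∃ j', j = j' + 1 := ⟨j - 1, by omega⟩
    have h := Helper96_MWV.sh1 hw.sr hw.sl (p ++ P i d) (P j d ++ q) d 3 (fun h => hd h.symm) (by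
      have h1 : [3].count 3 = 1 := by simp
      rcases hb with h | h
      · have h2 := List.count_pos_iff.2 h
        simp only [List.count_append]
        omega
      · have h2 := List.count_pos_iff.2 h
        simp only [List.count_append]
        omega)
    have e1 : (p ++ P i d) ++ (P 2 d ++ ([3] ++ (P 1 d ++ (P j d ++ q)))) =
        p ++ (P (i + 1 + 1) d ++ 3 :: (P (j + 1) d ++ q)) := by
      have f1 : P (i + 1 + 1) d = P i d ++ P 2 d := (List.replicate_add i 2 d)
      have f2 : P (j + 1) d = P 1 d ++ P j d := by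
        rw [Nat.add_comm]
        exact (List.replicate_add 1 j d)
      rw [f1, f2]
      simp only [List.append_assoc, List.singleton_append]
    have e2 : (p ++ P i d) ++ (P 1 d ++ ([3] ++ (P 2 d ++ (P j d ++ q)))) =
        p ++ (P (i + 1) d ++ 3 :: (P (j + 1 + 1) d ++ q)) := by
      have f1 : P (i + 1) d = P i d ++ P 1 d := (List.replicate_add i 1 d)
      have f2 : P (j + 1 + 1) d = P 2 d ++ P j d := by
        have : j + 1 + 1 = 2 + j := by omega
        rw [this]
        exact (List.replicate_add 2 j d)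
      rw [f1, f2]
      simp only [List.append_assoc, List.singleton_append]
    rw [e1, e2] at h
    exact h
  have hshk : ∀ k i j, 1 ≤ i → 1 ≤ j →
      RR β (p ++ (P (i + k) d ++ 3 :: (P j d ++ q))) (p ++ (P i d ++ 3 :: (P (j + k) d ++ q))) := by
    intro k
    induction k with
    | zero => intro i j _ _; exact RR.refl _
    | succ k ih =>
      intro i j hi hj
      have h1 := hsh (i + k) j p q (by omega) hj h3
      have h2 := ih i (j + 1) hi (by omega)
      have e1 : i + (k + 1) = i + k + 1 := by omega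
      have e2 : j + (k + 1) = j + 1 + k := by omega
      rw [e1, e2]
      exact tr h1 h2
  obtain ⟨k, rfl⟩ : ∃ k, n = k + 1 := ⟨n - 1, by omega⟩
  have h := hshk (k * (k + 2)) (k + 1 + 1) (k + 1 + 1) (by omega) (by omega)
  have e : k + 1 + 1 + k * (k + 2) = (k + 1) * (k + 1 + 1) := by ring
  rw [e] at h
  exact h

theorem mvL (hw : Wo n β) (hf : Helper96_MWV.Fil n β) {d : ℕ} (hd : Hm d = true)
    (x1 b y : List ℕ) (h3b : 3 ∉ b) (h3y : 3 ∈ y) (hnd : (b.filter (fun c => !Hm c)).Nodup)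
    (ho : ∀ c ∈ b, Hm c = false → c ∈ x1 ∨ c ∈ y) :
    RR β (Helper96_MWV.DH n Hm (x1 ++ (P n d ++ 3 :: (d :: (b ++ d :: y)))))
      (Helper96_MWV.DH n Hm (x1 ++ (d :: 3 :: (b ++ d :: y)))) := by
  have hd3 : d ≠ 3 := by
    rintro rfl
    rw [hm_iff] at hd
    omega
  have h3H : Hm 3 = false := by rw [hm_f]; omega
  have e3 : Helper96_MWV.DH n Hm [3] = [3] := Helper96_MWV.DH_id n Hm [3] (by
    intro a ha
    rw [List.mem_singleton] at ha
    rw [ha]
    exact h3H)
  have e1 : Helper96_MWV.DH n Hm [d] = P (n + 1) d := by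
    have h := Helper96_MWV.DH_P n Hm 1 d hd
    rw [Nat.one_mul] at h
    exact h
  have en : Helper96_MWV.DH n Hm (P n d) = P (n * (n + 1)) d := Helper96_MWV.DH_P n Hm n d hd
  have a1 : Helper96_MWV.DH n Hm (x1 ++ (P n d ++ 3 :: (d :: (b ++ d :: y)))) =
      Helper96_MWV.DH n Hm x1 ++ (P (n * (n + 1)) d ++ 3 :: (P (n + 1) d ++
        Helper96_MWV.DH n Hm (b ++ d :: y))) := by
    have f : x1 ++ (P n d ++ 3 :: (d :: (b ++ d :: y))) =
        x1 ++ (P n d ++ ([3] ++ ([d] ++ (b ++ d :: y)))) := rfl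
    rw [f, Helper96_MWV.DH_app, Helper96_MWV.DH_app, Helper96_MWV.DH_app, Helper96_MWV.DH_app,
      en, e3, e1]
    rfl
  have a2 : Helper96_MWV.DH n Hm (x1 ++ d :: ([3] ++ (P n d ++ (b ++ d :: y)))) =
      Helper96_MWV.DH n Hm x1 ++ (P (n + 1) d ++ 3 :: (P (n * (n + 1)) d ++
        Helper96_MWV.DH n Hm (b ++ d :: y))) := by
    have f : x1 ++ d :: ([3] ++ (P n d ++ (b ++ d :: y))) =
        x1 ++ ([d] ++ ([3] ++ (P n d ++ (b ++ d :: y)))) := rfl
    rw [f, Helper96_MWV.DH_app, Helper96_MWV.DH_app, Helper96_MWV.DH_app, Helper96_MWV.DH_app,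
      en, e3, e1]
    rfl
  have h3D : 3 ∈ Helper96_MWV.DH n Hm (b ++ d :: y) := by
    apply Helper96_MWV.DH_mem h3H
    simp [h3y]
  have s1 := shift3 hw hd3 (Helper96_MWV.DH n Hm x1) (Helper96_MWV.DH n Hm (b ++ d :: y))
    (Or.inr h3D)
  rw [← a1, ← a2] at s1
  have s2 := hf Hm x1 y [3] b d hd (by
    rw [List.filter_append, List.nodup_append]
    refine ⟨?_, hnd, ?_⟩
    · exact (List.nodup_singleton 3).filter _
    · intro a ha a' ha' e
      have h1 := List.mem_singleton.1 (List.mem_filter.1 ha).1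
      have h2 := (List.mem_filter.1 ha').1
      rw [← e, h1] at h2
      exact h3b h2) (by
    intro a ha hH
    rcases List.mem_append.1 ha with h | h
    · rw [List.mem_singleton.1 h]
      exact Or.inr h3y
    · exact ho a h hH)
  exact tr s1 s2.symm

theorem mvR (hw : Wo n β) (hf : Helper96_MWV.Fil n β) {d : ℕ} (hd : Hm d = true)
    (y b x2 : List ℕ) (h3b : 3 ∉ b) (h3y : 3 ∈ y) (hnd : (b.filter (fun c => !Hm c)).Nodup)
    (ho : ∀ c ∈ b, Hm c = false → c ∈ y ∨ c ∈ x2) :
    RR β (Helper96_MWV.DH n Hm ((y ++ d :: b) ++ (d :: 3 :: (P n d ++ x2))))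
      (Helper96_MWV.DH n Hm ((y ++ d :: b) ++ (3 :: (d :: x2)))) := by
  have hd3 : d ≠ 3 := by
    rintro rfl
    rw [hm_iff] at hd
    omega
  have h3H : Hm 3 = false := by rw [hm_f]; omega
  have e3 : Helper96_MWV.DH n Hm [3] = [3] := Helper96_MWV.DH_id n Hm [3] (by
    intro a ha
    rw [List.mem_singleton] at ha
    rw [ha]
    exact h3H)
  have e1 : Helper96_MWV.DH n Hm [d] = P (n + 1) d := by
    have h := Helper96_MWV.DH_P n Hm 1 d hd
    rw [Nat.one_mul] at h
    exact h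
  have en : Helper96_MWV.DH n Hm (P n d) = P (n * (n + 1)) d := Helper96_MWV.DH_P n Hm n d hd
  have a1 : Helper96_MWV.DH n Hm ((y ++ d :: b) ++ (d :: 3 :: (P n d ++ x2))) =
      Helper96_MWV.DH n Hm (y ++ d :: b) ++ (P (n + 1) d ++ 3 :: (P (n * (n + 1)) d ++
        Helper96_MWV.DH n Hm x2)) := by
    have f : (y ++ d :: b) ++ (d :: 3 :: (P n d ++ x2)) =
        (y ++ d :: b) ++ ([d] ++ ([3] ++ (P n d ++ x2))) := rfl
    rw [f, Helper96_MWV.DH_app (u := y ++ d :: b), Helper96_MWV.DH_app (u := [d]),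
      Helper96_MWV.DH_app (u := [3]), Helper96_MWV.DH_app (u := P n d), en, e3, e1]
    rfl
  have a2 : Helper96_MWV.DH n Hm (y ++ d :: (b ++ (P n d ++ ([3] ++ d :: x2)))) =
      Helper96_MWV.DH n Hm (y ++ d :: b) ++ (P (n * (n + 1)) d ++ 3 :: (P (n + 1) d ++
        Helper96_MWV.DH n Hm x2)) := by
    have f : y ++ d :: (b ++ (P n d ++ ([3] ++ d :: x2))) =
        (y ++ d :: b) ++ (P n d ++ ([3] ++ ([d] ++ x2))) := by simp
    rw [f, Helper96_MWV.DH_app (u := y ++ d :: b), Helper96_MWV.DH_app (u := P n d),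
      Helper96_MWV.DH_app (u := [3]), Helper96_MWV.DH_app (u := [d]), en, e3, e1]
    rfl
  have h3D : 3 ∈ Helper96_MWV.DH n Hm (y ++ d :: b) := by
    apply Helper96_MWV.DH_mem h3H
    simp [h3y]
  have s1 := (shift3 hw hd3 (Helper96_MWV.DH n Hm (y ++ d :: b)) (Helper96_MWV.DH n Hm x2)
    (Or.inl h3D)).symm
  rw [← a1, ← a2] at s1
  have s2 := hf Hm y x2 b [3] d hd (by
    rw [List.filter_append, List.nodup_append]
    refine ⟨hnd, ?_, ?_⟩
    · exact (List.nodup_singleton 3).filter _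
    · intro a ha a' ha' e
      have h1 := List.mem_singleton.1 (List.mem_filter.1 ha').1
      have h2 := (List.mem_filter.1 ha).1
      rw [e, h1] at h2
      exact h3b h2) (by
    intro a ha hH
    rcases List.mem_append.1 ha with h | h
    · exact ho a h hH
    · rw [List.mem_singleton.1 h]
      exact Or.inl h3y)
  have e5 : (y ++ d :: b) ++ (3 :: (d :: x2)) = y ++ d :: (b ++ ([3] ++ d :: x2)) := by simp
  rw [e5]
  exact tr s1 s2.symm

theorem filt_heavy {t : List ℕ} (h : ∀ a ∈ t, Hm a = true) :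
    t.filter (fun c => !Hm c) = [] := by
  rw [List.filter_eq_nil_iff]
  intro a ha
  rw [h a ha]
  simp

theorem moveL (hw : Wo n β) (hf : Helper96_MWV.Fil n β) (X Z : List ℕ) : ∀ (t s : List ℕ),
    (∀ d ∈ t, Hm d = true ∧ ∃ b y, Z = b ++ d :: y ∧ 3 ∉ b ∧ 3 ∈ y ∧
      (b.filter (fun c => !Hm c)).Nodup ∧ ∀ c ∈ b, Hm c = false → c ∈ X ∨ c ∈ y) →
    RR β (Helper96_MWV.DH n Hm (X ++ (s ++ (Dw n t ++ 3 :: (t ++ Z)))))
      (Helper96_MWV.DH n Hm (X ++ (s ++ (t ++ 3 :: Z))))
  | [], s, _ => RR.refl _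
  | d :: t, s, h => by
    obtain ⟨hd, b, y, eZ, h3b, h3y, hnd, ho⟩ := h d List.mem_cons_self
    have ht : ∀ a ∈ t, Hm a = true := fun a ha => (h a (List.mem_cons_of_mem _ ha)).1
    have hDt : ∀ a ∈ Dw n t, Hm a = true := fun a ha => ht a (dw_mem ha)
    have hPn : ∀ k, ∀ a ∈ P k d, Hm a = true := fun k a ha => by
      rw [List.eq_of_mem_replicate ha]
      exact hd
    have s1 := dh_comm hw (hPn n) hDt (X ++ s) (3 :: (d :: (t ++ Z)))
    have s2 := mvL hw hf hd (X ++ (s ++ Dw n t)) (t ++ b) y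
      (by
        rw [List.mem_append, not_or]
        refine ⟨fun h' => ?_, h3b⟩
        have := ht 3 h'
        rw [hm_iff] at this
        omega) h3y
      (by rw [List.filter_append, filt_heavy ht, List.nil_append]; exact hnd)
      (by
        intro a ha hH
        rcases List.mem_append.1 ha with h' | h'
        · rw [ht a h'] at hH
          exact absurd hH (by simp)
        · rcases ho a h' hH with h'' | h''
          · exact Or.inl (List.mem_append_left _ h'')
          · exact Or.inr h'')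
    have s3 := dh_comm hw hDt (hPn 1) (X ++ s) (3 :: (t ++ Z))
    have s4 := moveL hw hf X Z t (s ++ [d]) (fun a ha => h a (List.mem_cons_of_mem _ ha))
    rw [dw_cons]
    have f1 : X ++ (s ++ ((P n d ++ Dw n t) ++ 3 :: ((d :: t) ++ Z))) =
        (X ++ s) ++ (P n d ++ (Dw n t ++ 3 :: (d :: (t ++ Z)))) := by
      simp only [List.append_assoc, List.cons_append]
    have f2 : (X ++ s) ++ (Dw n t ++ (P n d ++ 3 :: (d :: (t ++ Z)))) =
        (X ++ (s ++ Dw n t)) ++ (P n d ++ 3 :: (d :: ((t ++ b) ++ d :: y))) := by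
      rw [eZ]
      simp only [List.append_assoc]
    have f3 : (X ++ (s ++ Dw n t)) ++ (d :: 3 :: ((t ++ b) ++ d :: y)) =
        (X ++ s) ++ (Dw n t ++ (P 1 d ++ 3 :: (t ++ Z))) := by
      rw [eZ]
      simp only [List.append_assoc]
      rfl
    have f4 : (X ++ s) ++ (P 1 d ++ (Dw n t ++ 3 :: (t ++ Z))) =
        X ++ ((s ++ [d]) ++ (Dw n t ++ 3 :: (t ++ Z))) := by
      simp only [List.append_assoc]
      rfl
    have f5 : X ++ ((s ++ [d]) ++ (t ++ 3 :: Z)) = X ++ (s ++ ((d :: t) ++ 3 :: Z)) := by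
      simp only [List.append_assoc, List.cons_append, List.nil_append]
    rw [f1]
    rw [f2] at s1
    rw [f3] at s2
    rw [f4] at s3
    rw [f5] at s4
    exact tr s1 (tr s2 (tr s3 s4))

theorem moveR (hw : Wo n β) (hf : Helper96_MWV.Fil n β) (Z Y : List ℕ) : ∀ (k : ℕ) (t s : List ℕ),
    t.length = k →
    (∀ d ∈ t, Hm d = true ∧ ∃ y b, Z = y ++ d :: b ∧ 3 ∉ b ∧ 3 ∈ y ∧
      (b.filter (fun c => !Hm c)).Nodup ∧ ∀ c ∈ b, Hm c = false → c ∈ y ∨ c ∈ Y) →
    RR β (Helper96_MWV.DH n Hm (Z ++ (t ++ 3 :: (Dw n t ++ (s ++ Y)))))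
      (Helper96_MWV.DH n Hm (Z ++ 3 :: (t ++ (s ++ Y))))
  | 0, t, s, hk, _ => by
    rw [List.length_eq_zero_iff] at hk
    subst hk
    exact RR.refl _
  | k + 1, t', s, hk, h => by
    obtain ⟨t, d, rfl⟩ : ∃ t d, t' = t ++ [d] := by
      have hne : t' ≠ [] := by
        rintro rfl
        simp at hk
      exact ⟨t'.dropLast, t'.getLast hne, (List.dropLast_append_getLast hne).symm⟩
    have hk' : t.length = k := by
      rw [List.length_append, List.length_singleton] at hk
      omega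
    obtain ⟨hd, y, b, eZ, h3b, h3y, hnd, ho⟩ := h d (by simp)
    have ht : ∀ a ∈ t, Hm a = true := fun a ha => (h a (by simp [ha])).1
    have hDt : ∀ a ∈ Dw n t, Hm a = true := fun a ha => ht a (dw_mem ha)
    have hPn : ∀ k, ∀ a ∈ P k d, Hm a = true := fun k a ha => by
      rw [List.eq_of_mem_replicate ha]
      exact hd
    have s1 := dh_comm hw hDt (hPn n) (Z ++ (t ++ (d :: [3]))) (s ++ Y)
    have s2 := mvR hw hf hd y (b ++ t) (Dw n t ++ (s ++ Y))
      (by
        rw [List.mem_append, not_or]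
        refine ⟨h3b, fun h' => ?_⟩
        have := ht 3 h'
        rw [hm_iff] at this
        omega) h3y
      (by rw [List.filter_append, filt_heavy ht, List.append_nil]; exact hnd)
      (by
        intro a ha hH
        rcases List.mem_append.1 ha with h' | h'
        · rcases ho a h' hH with h'' | h''
          · exact Or.inl h''
          · exact Or.inr (by simp [h''])
        · rw [ht a h'] at hH
          exact absurd hH (by simp))
    have s3 := dh_comm hw (hPn 1) hDt (Z ++ (t ++ [3])) (s ++ Y)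
    have s4 := moveR hw hf Z Y k t (d :: s) hk' (fun a ha => h a (by simp [ha]))
    rw [dw_app, dw_one]
    have f1 : Z ++ ((t ++ [d]) ++ 3 :: ((Dw n t ++ P n d) ++ (s ++ Y))) =
        (Z ++ (t ++ (d :: [3]))) ++ (Dw n t ++ (P n d ++ (s ++ Y))) := by
      simp only [List.append_assoc, List.cons_append, List.nil_append]
    have f2 : (Z ++ (t ++ (d :: [3]))) ++ (P n d ++ (Dw n t ++ (s ++ Y))) =
        (y ++ d :: (b ++ t)) ++ (d :: 3 :: (P n d ++ (Dw n t ++ (s ++ Y)))) := by
      rw [eZ]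
      simp only [List.append_assoc, List.cons_append, List.nil_append]
    have f3 : (y ++ d :: (b ++ t)) ++ (3 :: (d :: (Dw n t ++ (s ++ Y)))) =
        (Z ++ (t ++ [3])) ++ (P 1 d ++ (Dw n t ++ (s ++ Y))) := by
      rw [eZ]
      simp only [List.append_assoc, List.cons_append, List.nil_append]
      rfl
    have f4 : (Z ++ (t ++ [3])) ++ (Dw n t ++ (P 1 d ++ (s ++ Y))) =
        Z ++ (t ++ 3 :: (Dw n t ++ ((d :: s) ++ Y))) := by
      simp only [List.append_assoc, List.cons_append, List.nil_append]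
      rfl
    have f5 : Z ++ 3 :: (t ++ ((d :: s) ++ Y)) = Z ++ 3 :: ((t ++ [d]) ++ (s ++ Y)) := by
      simp only [List.append_assoc, List.cons_append, List.nil_append]
    rw [f1]
    rw [f2] at s1
    rw [f3] at s2
    rw [f4] at s3
    rw [f5] at s4
    exact tr s1 (tr s2 (tr s3 s4))

end Pool.Agent.MWT.H11
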