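import Pool.Agent.Helper11_MWT.NES

/-!
# Squad MWT, row NES: the theorem
-/

set_option autoImplicit false

namespace Pool.Agent.MWT.H11

open Pool.Agent.Helper14_MV Pool.Agent.Helper2_MV Pool.Agent.MVD Pool.Agent.MWT

variable {n m : ℕ} {β : FIC} {R c : List ℕ} {pl : ℕ → List ℕ}

/-! ### lists -/

/-- a block inside the middle factor -/
theorem blk_mid {A C A2 A' C' : List ℕ} {a k : ℕ} (hk : 1 ≤ k)
    (e : A ++ (C ++ A2) = A' ++ (List.replicate k a ++ C')) (hA : a ∉ A) (hA2 : a ∉ A2)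
    (hA' : a ∉ A') (hC' : a ∉ C') :
    ∃ D E, C = D ++ (List.replicate k a ++ E) ∧ a ∉ D ∧ a ∉ E := by
  obtain ⟨k, rfl⟩ : ∃ k', k = k' + 1 := ⟨k - 1, by omega⟩
  have h1 : ∃ D, A' = A ++ D ∧ C ++ A2 = D ++ (List.replicate (k + 1) a ++ C') := by
    rcases List.append_eq_append_iff.1 e with ⟨D, e1, e2⟩ | ⟨D, e1, e2⟩
    · exact ⟨D, e1, e2⟩
    · cases D with
      | nil =>
        rw [List.append_nil] at e1
        rw [List.nil_append] at e2
        exact ⟨[], by rw [List.append_nil, e1], by rw [List.nil_append, e2]⟩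
      | cons b D =>
        exfalso
        rw [List.replicate_succ, List.cons_append, List.cons_append] at e2
        injection e2 with e3 e4
        apply hA
        rw [e1, e3]
        simp
  obtain ⟨D, e1, e2⟩ := h1
  have hD : a ∉ D := fun h => hA' (by rw [e1]; simp [h])
  rw [← List.append_assoc] at e2
  rcases List.append_eq_append_iff.1 e2 with ⟨E, e3, e4⟩ | ⟨E, e3, e4⟩
  · -- `D ++ replicate = C ++ E`
    cases E using List.reverseRecOn with
    | nil =>
      rw [List.append_nil] at e3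
      exact ⟨D, [], by rw [List.append_nil, ← e3], hD, List.not_mem_nil⟩
    | append_singleton E b _ =>
      exfalso
      rw [List.replicate_succ', ← List.append_assoc, ← List.append_assoc] at e3
      have e5 := List.append_inj_right' e3 rfl
      injection e5 with e6
      apply hA2
      rw [e4, ← e6]
      simp
  · refine ⟨D, E, by rw [e3, List.append_assoc], hD, fun h => hC' (by rw [e4]; simp [h])⟩

theorem hs_self' (hw : Wo n β) {c : List ℕ} (hbl : ∀ a ∈ c, a % 3 = 0 →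
    ∃ A C, c = A ++ (List.replicate (n + 1) a ++ C) ∧ a ∉ A ∧ a ∉ C) : ∀ S : List ℕ, S.Nodup →
    (∀ a ∈ S, a ∈ c ∧ a % 3 = 0) → RR β c (Helper96_MWV.hS n S c)
  | [], _, _ => by
    rw [Helper96_MWV.hS_nil]
    exact RR.refl _
  | a :: S, hn, h => by
    rw [List.nodup_cons] at hn
    have ih := hs_self' hw hbl S hn.2 (fun b hb => h b (List.mem_cons_of_mem _ hb))
    obtain ⟨ha, ha3⟩ := h a List.mem_cons_self
    obtain ⟨A, C, e, hA, hC⟩ := hbl a ha ha3
    rw [← Helper96_MWV.hv_hS n a S hn.1]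
    have h1 : RR β c (Helper96_MWV.hv n a c) := by
      rw [e]
      exact hv_self hw hA hC
    exact tr h1 (hv_rr a ih)

theorem dh_self' (hw : Wo n β) {c : List ℕ} (hbl : ∀ a ∈ c, a % 3 = 0 →
    ∃ A C, c = A ++ (List.replicate (n + 1) a ++ C) ∧ a ∉ A ∧ a ∉ C) :
    RR β c (Helper96_MWV.DH n Hm c) := by
  have h := hs_self' hw hbl ((c.filter Hm).dedup) (List.nodup_dedup _) (fun a ha => by
    rw [List.mem_dedup, List.mem_filter, hm_iff] at ha
    exact ⟨ha.1, ha.2.1⟩)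
  have e : Helper96_MWV.hS n ((c.filter Hm).dedup) c = Helper96_MWV.DH n Hm c := by
    unfold Helper96_MWV.hS Helper96_MWV.DH
    refine List.flatMap_congr (fun b hb => ?_)
    by_cases h1 : Hm b = true
    · rw [if_pos h1, if_pos (List.mem_dedup.2 (List.mem_filter.2 ⟨hb, h1⟩))]
    · rw [if_neg h1, if_neg (fun h2 => h1 (List.mem_filter.1 (List.mem_dedup.1 h2)).2)]
  rw [← e]
  exact h

/-! ### renaming `0` to `3` -/

/-- `0` becomes `3` -/
def ro (a : ℕ) : List ℕ := if a = 0 then [3] else [a]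

theorem ro_id (w : List ℕ) (h : 0 ∉ w) : w.flatMap ro = w := by
  induction w with
  | nil => rfl
  | cons a w ih =>
    rw [List.mem_cons, not_or] at h
    rw [List.flatMap_cons, ih h.2]
    unfold ro
    rw [if_neg (fun h' => h.1 h'.symm)]
    rfl

/-- `3` becomes `0` -/
def r3 (a : ℕ) : List ℕ := if a = 3 then [0] else [a]

theorem r3_id (w : List ℕ) (h : 3 ∉ w) : w.flatMap r3 = w := by
  induction w with
  | nil => rfl
  | cons a w ih =>
    rw [List.mem_cons, not_or] at h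
    rw [List.flatMap_cons, ih h.2]
    unfold r3
    rw [if_neg (fun h' => h.1 h'.symm)]
    rfl

theorem dh_ro (w : List ℕ) :
    (Helper96_MWV.DH n Hm w).flatMap ro = Helper96_MWV.DH n Hm (w.flatMap ro) := by
  induction w with
  | nil => rfl
  | cons a w ih =>
    have e1 : Helper96_MWV.DH n Hm (a :: w) =
        (if Hm a = true then P (n + 1) a else [a]) ++ Helper96_MWV.DH n Hm w := rfl
    rw [e1, List.flatMap_append, ih, List.flatMap_cons, Helper96_MWV.DH_app]
    congr 1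
    by_cases h0 : a = 0
    · subst h0
      have h1 : ¬ Hm 0 = true := by rw [hm_iff]; omega
      rw [if_neg h1]
      have e2 : ro 0 = [3] := rfl
      rw [List.flatMap_cons, List.flatMap_nil, List.append_nil, e2]
      exact (Helper96_MWV.DH_id n Hm [3] (by
        intro b hb
        rw [List.mem_singleton] at hb
        rw [hm_f]
        omega)).symm
    · have e2 : ro a = [a] := by unfold ro; rw [if_neg h0]
      rw [e2]
      have e3 : Helper96_MWV.DH n Hm [a] = if Hm a = true then P (n + 1) a else [a] := by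
        change (if Hm a = true then P (n + 1) a else [a]) ++ [] = _
        rw [List.append_nil]
      rw [e3]
      apply ro_id
      intro h
      by_cases hH : Hm a = true
      · rw [if_pos hH] at h
        exact h0 (List.eq_of_mem_replicate h).symm
      · rw [if_neg hH, List.mem_singleton] at h
        exact h0 h.symm

theorem dh_hv3 (w : List ℕ) : Helper96_MWV.DH n Hm (Helper96_MWV.hv n 3 w) =
    Helper96_MWV.hv n 3 (Helper96_MWV.DH n Hm w) := by
  induction w with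
  | nil => rfl
  | cons a w ih =>
    have e0 : (a :: w) = [a] ++ w := rfl
    rw [e0, Helper96_MWV.hv_app, Helper96_MWV.DH_app, Helper96_MWV.DH_app, Helper96_MWV.hv_app, ih]
    congr 1
    have h3 : Hm 3 = false := by rw [hm_f]; omega
    by_cases ha : a = 3
    · subst ha
      have e1 : Helper96_MWV.DH n Hm [3] = [3] := Helper96_MWV.DH_id n Hm [3] (by
        intro b hb
        rw [List.mem_singleton] at hb
        rw [hb]
        exact h3)
      rw [e1, Helper96_MWV.hv_one]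
      exact Helper96_MWV.DH_id n Hm _ (by
        intro b hb
        rw [List.eq_of_mem_replicate hb]
        exact h3)
    · have e1 : Helper96_MWV.hv n 3 [a] = [a] := Helper96_MWV.hv_id n 3 [a] (by
        rw [List.mem_singleton]
        exact fun h => ha h.symm)
      rw [e1]
      symm
      apply Helper96_MWV.hv_id
      intro h
      unfold Helper96_MWV.DH at h
      rw [List.mem_flatMap] at h
      obtain ⟨b, hb, h'⟩ := h
      rw [List.mem_singleton] at hb
      subst hb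
      by_cases hH : Hm b = true
      · rw [if_pos hH] at h'
        exact ha (List.eq_of_mem_replicate h').symm
      · rw [if_neg hH, List.mem_singleton] at h'
        exact ha h'.symm

/-! ### the main block and the rest -/

theorem zsplit {R1 R2 : List ℕ} (eR : R = R1 ++ 0 :: R2) (n1 : 0 ∉ R1) (n2 : 0 ∉ R2)
    {B F : ℕ → List ℕ} {M e : List ℕ} (h0 : F 0 = M) (h : ∀ r ∈ R, r ≠ 0 → F r = B r) :
    Bw R F ++ e = Bw R1 B ++ (M ++ 2 :: (Bw R2 B ++ e)) := by
  have e1 : Bw R1 F = Bw R1 B := bw_eq (fun r hr => h r (by rw [eR]; simp [hr]) (by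
    rintro rfl
    exact n1 hr))
  have e2 : Bw R2 F = Bw R2 B := bw_eq (fun r hr => h r (by rw [eR]; simp [hr]) (by
    rintro rfl
    exact n2 hr))
  have e3 : Bw R F = Bw R1 F ++ ((F 0 ++ [3 * 0 + 2]) ++ Bw R2 F) := by
    rw [eR]
    unfold Bw
    rw [List.flatMap_append, List.flatMap_cons]
  rw [e3, e1, e2, h0]
  simp

theorem ins2 (hp : Pl m R pl) {R1 R2 : List ℕ} (eR : R = R1 ++ 0 :: R2) (n1 : 0 ∉ R1)
    (n2 : 0 ∉ R2) {B : ℕ → List ℕ} {e L M : List ℕ} (u w : List ℕ) (hL : SFr L) (hM : SFr M)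
    (hB : ∀ r, SFr (B r)) (he : SFr e)
    (h : RR β (Bp R pl L) (Bw R1 B ++ (M ++ 2 :: (Bw R2 B ++ e)))) :
    RR β (Bp R pl (u ++ (L ++ w))) (Bw R1 B ++ ((u ++ (M ++ w)) ++ 2 :: (Bw R2 B ++ e))) := by
  have hs : ∀ r ∈ R, SFr (Bb pl L r) := by
    intro r hr
    unfold Bb
    by_cases h0 : r = 0
    · rw [if_pos h0]
      exact hL
    · rw [if_neg h0]
      intro a ha
      obtain ⟨d, _, rfl⟩ := pl_mem hp hr h0 ha
      omega
  let F : ℕ → List ℕ := fun r => if r = 0 then M else B r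
  have hF : ∀ r ∈ R, SFr (F r) := by
    intro r _
    change SFr (if r = 0 then M else B r)
    by_cases h0 : r = 0
    · rw [if_pos h0]
      exact hM
    · rw [if_neg h0]
      exact hB r
  have e1 : Bw R F ++ e = Bw R1 B ++ (M ++ 2 :: (Bw R2 B ++ e)) :=
    zsplit eR n1 n2 (if_pos rfl) (fun r _ h0 => if_neg h0)
  rw [← e1] at h
  have h1 := MWE.H11.trg β R (Bb pl L) F (fun r => if r = 0 then u else [])
    (fun r => if r = 0 then w else []) e hp.nd hs hF he h
  have e2 : Bw R (fun r => (if r = 0 then u else []) ++ (Bb pl L r ++ (if r = 0 then w else []))) =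
      Bp R pl (u ++ (L ++ w)) := by
    rw [bp_eq]
    apply bw_eq
    intro r _
    unfold Bb
    by_cases h0 : r = 0
    · rw [if_pos h0, if_pos h0, if_pos h0, if_pos h0]
    · rw [if_neg h0, if_neg h0, if_neg h0, if_neg h0, List.append_nil, List.nil_append]
  have e3 : Bw R (fun r => (if r = 0 then u else []) ++ (F r ++ (if r = 0 then w else []))) ++ e =
      Bw R1 B ++ ((u ++ (M ++ w)) ++ 2 :: (Bw R2 B ++ e)) := by
    refine zsplit eR n1 n2 ?_ ?_
    · change (if 0 = 0 then u else []) ++ ((if 0 = 0 then M else B 0) ++ (if 0 = 0 then w else [])) = _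
      rw [if_pos rfl, if_pos rfl, if_pos rfl]
    · intro r _ h0
      change (if r = 0 then u else []) ++ ((if r = 0 then M else B r) ++ (if r = 0 then w else [])) = _
      rw [if_neg h0, if_neg h0, if_neg h0, List.append_nil, List.nil_append]
  rw [e2, e3] at h1
  exact h1

/-- the thin letter `3` which encloses less letters is thick -/
theorem lf_thick (S : St n β m R pl c) {A C A2 : List ℕ} (hc : c = A ++ (C ++ A2))
    (hal : ∀ a ∈ A ++ A2, a ∉ C) (hnd : nd C < nd c) :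
    RR β (Bp R pl (A ++ 3 :: (C ++ 3 :: A2)))
      (Helper96_MWV.hv n 3 (Bp R pl (A ++ 3 :: (C ++ 3 :: A2)))) := by
  obtain ⟨R1, R2, eR, n1, n2, hsp⟩ := bp_split S.pc
  have hn := S.wo.hn
  have hcm : ∀ a ∈ c, a ≠ 0 ∧ a ≠ 3 ∧ a % 3 ≠ 2 := fun a ha => cn_mem S.cn ha
  have hA3 : 3 ∉ A := fun h => (hcm 3 (by rw [hc]; simp [h])).2.1 rfl
  have hC3 : 3 ∉ C := fun h => (hcm 3 (by rw [hc]; simp [h])).2.1 rfl
  have hA23 : 3 ∉ A2 := fun h => (hcm 3 (by rw [hc]; simp [h])).2.1 rfl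
  have hC0 : 0 ∉ C := fun h => (hcm 0 (by rw [hc]; simp [h])).1 rfl
  have hR1 : ∀ r ∈ R1, r ∈ R ∧ r ≠ 0 := fun r hr => ⟨by rw [eR]; simp [hr], fun h => n1 (h ▸ hr)⟩
  have hR2 : ∀ r ∈ R2, r ∈ R ∧ r ≠ 0 := fun r hr => ⟨by rw [eR]; simp [hr], fun h => n2 (h ▸ hr)⟩
  have h31 : 3 ∉ Bw R1 pl := fun h => no0_pl S.pc hR1 h (by omega)
  have h32 : 3 ∉ Bw R2 pl := fun h => no0_pl S.pc hR2 h (by omega)
  have hbl : ∀ a ∈ C, a % 3 = 0 →
      ∃ D E, C = D ++ (List.replicate (n + 1) a ++ E) ∧ a ∉ D ∧ a ∉ E := by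
    intro a ha ha3
    obtain ⟨A', C', e, h1, h2⟩ := S.cn.bl a (by rw [hc]; simp [ha]) ha3
    rw [hc] at e
    exact blk_mid (by omega) e (fun h => hal a (by simp [h]) ha)
      (fun h => hal a (by simp [h]) ha) h1 h2
  by_cases hl : ∀ d < m, 3 * d + 1 ∈ C
  · -- all lights
    have hCn : Cn n m C := by
      refine ⟨?_, ?_, hbl⟩
      · intro d hd
        have h1 := S.cn.li d hd
        rw [hc, List.count_append, List.count_append] at h1
        have h2 := List.count_pos_iff.2 (hl d hd)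
        omega
      · intro a ha
        exact S.cn.lo a (by rw [hc]; simp [ha])
    have hth := S.h2 C hCn hnd R pl S.pc
    unfold Th at hth
    have hro := hth.sub ro
    have hpl : ∀ {T : List ℕ}, (∀ r ∈ T, r ∈ R ∧ r ≠ 0) → 0 ∉ Bw T pl :=
      fun hT h => no0_pl S.pc hT h (by omega)
    have e1 : (Bp R pl (0 :: (C ++ [0]))).flatMap ro = Bp R pl (3 :: (C ++ [3])) := by
      rw [hsp, hsp, List.flatMap_append, List.flatMap_append, List.flatMap_cons (x := 2),
        ro_id _ (hpl hR1), ro_id _ (hpl hR2), List.flatMap_cons, List.flatMap_append, ro_id _ hC0]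
      rfl
    have e0P : ∀ k : ℕ, (P k 0).flatMap ro = P k 3 := by
      intro k
      induction k with
      | zero => rfl
      | succ k ih =>
        have e : P (k + 1) 0 = 0 :: P k 0 := List.replicate_succ
        rw [e, List.flatMap_cons, ih]
        rfl
    have e2 : (Bp R pl (P (n + 1) 0 ++ (C ++ P (n + 1) 0))).flatMap ro =
        Bp R pl (P (n + 1) 3 ++ (C ++ P (n + 1) 3)) := by
      rw [hsp, hsp, List.flatMap_append, List.flatMap_append, List.flatMap_cons (x := 2),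
        ro_id _ (hpl hR1), ro_id _ (hpl hR2), List.flatMap_append, List.flatMap_append,
        ro_id _ hC0, e0P]
      rfl
    rw [e1, e2] at hro
    have hsC : SFr C := fun a ha => (hcm a (by rw [hc]; simp [ha])).2.2
    have sf : ∀ k, SFr (P k 3) := fun k => sfr_P k 3 (by omega)
    have hro' : RR β (Bp R pl (3 :: (C ++ [3])))
        (Bw R1 pl ++ ((P (n + 1) 3 ++ (C ++ P (n + 1) 3)) ++ 2 :: (Bw R2 pl ++ []))) := by
      rw [List.append_nil, ← hsp]
      exact hro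
    have hplS : ∀ r, SFr (if r ∈ R ∧ r ≠ 0 then pl r else []) := by
      intro r a ha
      by_cases hr : r ∈ R ∧ r ≠ 0
      · rw [if_pos hr] at ha
        obtain ⟨d, _, rfl⟩ := pl_mem S.pc hr.1 hr.2 ha
        omega
      · rw [if_neg hr] at ha
        exact absurd ha List.not_mem_nil
    have epl : ∀ {T : List ℕ}, (∀ r ∈ T, r ∈ R ∧ r ≠ 0) →
        Bw T (fun r => if r ∈ R ∧ r ≠ 0 then pl r else []) = Bw T pl := by
      intro T hT
      exact bw_eq (fun r hr => if_pos (hT r hr))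
    rw [← epl hR1, ← epl hR2] at hro'
    have h5 := ins2 S.pc eR n1 n2 A A2 (sfr_app (u := P 1 3) (sf 1) (sfr_app hsC (sf 1)))
      (sfr_app (sf _) (sfr_app hsC (sf _))) hplS (fun a ha => absurd ha List.not_mem_nil) hro'
    rw [epl hR1, epl hR2, List.append_nil, ← hsp] at h5
    have e3 : A ++ ((P 1 3 ++ (C ++ P 1 3)) ++ A2) = A ++ 3 :: (C ++ 3 :: A2) := by simp
    rw [e3] at h5
    have e4 : Helper96_MWV.hv n 3 (Bp R pl (A ++ 3 :: (C ++ 3 :: A2))) =
        Bp R pl (A ++ ((P (n + 1) 3 ++ (C ++ P (n + 1) 3)) ++ A2)) := by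
      rw [hsp, hsp]
      have f : Bw R1 pl ++ ((A ++ 3 :: (C ++ 3 :: A2)) ++ 2 :: Bw R2 pl) =
          Bw R1 pl ++ (A ++ ([3] ++ (C ++ ([3] ++ (A2 ++ ([2] ++ Bw R2 pl)))))) := by simp
      rw [f]
      simp only [Helper96_MWV.hv_app]
      rw [Helper96_MWV.hv_one, Helper96_MWV.hv_id n 3 _ h31, Helper96_MWV.hv_id n 3 _ hA3,
        Helper96_MWV.hv_id n 3 _ hC3, Helper96_MWV.hv_id n 3 _ hA23,
        Helper96_MWV.hv_id n 3 [2] (by decide), Helper96_MWV.hv_id n 3 _ h32]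
      simp
    rw [e4]
    exact h5
  · -- a light is missing
    push Not at hl
    obtain ⟨d, hd, hdC⟩ := hl
    have hf : ∀ a ∈ C.filter (fun b => !Hm b), ∃ d' < m, a = 3 * d' + 1 ∧ d' ≠ d := by
      intro a ha
      rw [List.mem_filter] at ha
      rcases S.cn.lo a (by rw [hc]; simp [ha.1]) with ⟨d', hd', rfl⟩ | h
      · refine ⟨d', hd', rfl, ?_⟩
        rintro rfl
        exact hdC ha.1
      · rw [hm_iff.2 h] at ha
        simp at ha
    have hnd' : (C.filter (fun b => !Hm b)).Nodup := by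
      rw [List.nodup_iff_count_le_one]
      intro a
      by_cases ha : a ∈ C.filter (fun b => !Hm b)
      · obtain ⟨d', hd', rfl, _⟩ := hf a ha
        have h1 := S.cn.li d' hd'
        rw [hc, List.count_append, List.count_append] at h1
        exact le_trans (List.Sublist.count_le _ List.filter_sublist) (by omega)
      · rw [List.count_eq_zero_of_not_mem ha]
        omega
    have hlen : (C.filter (fun b => !Hm b)).length < m := by
      have hs : ∀ a ∈ C.filter (fun b => !Hm b),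
          a ∈ ((Finset.range m).erase d).image (fun i => 3 * i + 1) := by
        intro a ha
        obtain ⟨d', hd', rfl, hne⟩ := hf a ha
        exact Finset.mem_image.2 ⟨d', Finset.mem_erase.2 ⟨hne, Finset.mem_range.2 hd'⟩, rfl⟩
      have h2 : (C.filter (fun b => !Hm b)).length ≤
          (((Finset.range m).erase d).image (fun i => 3 * i + 1)).card := by
        rw [← List.toFinset_card_of_nodup hnd']
        exact Finset.card_le_card (fun a ha => hs a (List.mem_toFinset.1 ha))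
      have h3 : (((Finset.range m).erase d).image (fun i => 3 * i + 1)).card ≤
          ((Finset.range m).erase d).card := Finset.card_image_le
      rw [Finset.card_erase_of_mem (Finset.mem_range.2 hd), Finset.card_range] at h3
      omega
    have key := Helper96_MWV.lt1 S.wo.ap S.wo.hn S.wo.cm S.lt Hm (Bw R1 pl ++ A) C
      (A2 ++ 2 :: Bw R2 pl) 3 hC3 hnd' hlen (by
        intro a ha hH
        rcases S.cn.lo a (by rw [hc]; simp [ha]) with ⟨d', hd', rfl⟩ | h
        · obtain ⟨r, hr, hr0, hrp, _⟩ := S.pc.ex d' hd'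
          rw [eR] at hr
          rcases List.mem_append.1 hr with h | h
          · exact Or.inl (List.mem_append_left _ (MWE.H10.mem_bw.2 ⟨r, h, Or.inl (by
              rw [hrp]; simp)⟩))
          · rcases List.mem_cons.1 h with h | h
            · exact absurd h hr0
            · exact Or.inr (List.mem_append_right _ (List.mem_cons_of_mem _
                (MWE.H10.mem_bw.2 ⟨r, h, Or.inl (by rw [hrp]; simp)⟩)))
        · rw [hm_iff.2 h] at hH
          exact absurd hH (by simp))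
    have hdC' := dh_self' S.wo hbl
    have c1 := Helper96_MWV.cx (Bw R1 pl ++ (A ++ [3])) ([3] ++ (A2 ++ 2 :: Bw R2 pl)) hdC'
    have c2 := Helper96_MWV.cx (Bw R1 pl ++ (A ++ P (n + 1) 3))
      (P (n + 1) 3 ++ (A2 ++ 2 :: Bw R2 pl)) hdC'
    have e1 : Bp R pl (A ++ 3 :: (C ++ 3 :: A2)) = (Bw R1 pl ++ (A ++ [3])) ++
        (C ++ ([3] ++ (A2 ++ 2 :: Bw R2 pl))) := by
      rw [hsp]
      simp
    have e2 : (Bw R1 pl ++ A) ++ (P 1 3 ++ (Helper96_MWV.DH n Hm C ++ (P 1 3 ++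
        (A2 ++ 2 :: Bw R2 pl)))) = (Bw R1 pl ++ (A ++ [3])) ++ (Helper96_MWV.DH n Hm C ++
          ([3] ++ (A2 ++ 2 :: Bw R2 pl))) := by
      simp
    have e3 : (Bw R1 pl ++ A) ++ (P (n + 1) 3 ++ (Helper96_MWV.DH n Hm C ++ (P (n + 1) 3 ++
        (A2 ++ 2 :: Bw R2 pl)))) = (Bw R1 pl ++ (A ++ P (n + 1) 3)) ++
          (Helper96_MWV.DH n Hm C ++ (P (n + 1) 3 ++ (A2 ++ 2 :: Bw R2 pl))) := by
      simp
    have e4 : Helper96_MWV.hv n 3 ((Bw R1 pl ++ (A ++ [3])) ++
        (C ++ ([3] ++ (A2 ++ 2 :: Bw R2 pl)))) = (Bw R1 pl ++ (A ++ P (n + 1) 3)) ++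
        (C ++ (P (n + 1) 3 ++ (A2 ++ 2 :: Bw R2 pl))) := by
      have f : A2 ++ 2 :: Bw R2 pl = A2 ++ ([2] ++ Bw R2 pl) := rfl
      rw [f]
      simp only [Helper96_MWV.hv_app]
      rw [Helper96_MWV.hv_one, Helper96_MWV.hv_id n 3 _ h31, Helper96_MWV.hv_id n 3 _ hA3,
        Helper96_MWV.hv_id n 3 _ hC3, Helper96_MWV.hv_id n 3 _ hA23,
        Helper96_MWV.hv_id n 3 [2] (by decide), Helper96_MWV.hv_id n 3 _ h32]
    rw [e1, e4]
    rw [e2, e3] at key
    exact tr c1 (tr key c2.symm)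

theorem fst_uniq : ∀ {x1 x2 z1 z2 : List ℕ}, 0 ∉ x1 → 0 ∉ x2 → x1 ++ 0 :: z1 = x2 ++ 0 :: z2 →
    x1 = x2 ∧ z1 = z2
  | [], [], _, _, _, _, e => ⟨rfl, by
    rw [List.nil_append, List.nil_append] at e
    injection e⟩
  | [], b :: x2, _, _, _, h2, e => by
    rw [List.nil_append, List.cons_append] at e
    injection e with e1 e2
    exact absurd (by rw [e1]; simp) h2
  | a :: x1, [], _, _, h1, _, e => by
    rw [List.nil_append, List.cons_append] at e
    injection e with e1 e2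
    exact absurd (by rw [← e1]; simp) h1
  | a :: x1, b :: x2, z1, z2, h1, h2, e => by
    rw [List.cons_append, List.cons_append] at e
    injection e with e1 e2
    rw [List.mem_cons, not_or] at h1 h2
    obtain ⟨e3, e4⟩ := fst_uniq h1.2 h2.2 e2
    exact ⟨by rw [e1, e3], e4⟩

/-- **NES** for factors which do not cut the blocks. -/
theorem nes2 (S : St n β m R pl c) {A C A2 : List ℕ} {B : ℕ → List ℕ} {e : List ℕ}
    (hc : c = A ++ (C ++ A2)) (hal : ∀ a ∈ A ++ A2, a ∉ C) (hnd : nd C < nd c)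
    (hB : ∀ r, SFr (B r)) (he : SFr e)
    (h1 : RR β (Bp R pl (0 :: (c ++ [0]))) (Bw R (fun r => dl 3 (B r)) ++ dl 3 e))
    (h2 : RR β (Bp R pl (A ++ 3 :: (C ++ 3 :: A2))) (Bw R (fun r => dl 0 (B r)) ++ dl 0 e))
    (h3 : ∀ r ∈ R, r ≠ 0 → 3 ∉ B r) (h3e : 3 ∉ e) {p p' U q' q : List ℕ}
    (hB0 : B 0 = p ++ 3 :: (p' ++ 0 :: (U ++ 0 :: (q' ++ 3 :: q))))
    (np : 3 ∉ p) (np' : 3 ∉ p') (nU : 3 ∉ U) (nq' : 3 ∉ q') (nq : 3 ∉ q) : False := by
  obtain ⟨R1, R2, eR, n1, n2, hsp⟩ := bp_split S.pc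
  have hn := S.wo.hn
  have hcm : ∀ a ∈ c, a ≠ 0 ∧ a ≠ 3 ∧ a % 3 ≠ 2 := fun a ha => cn_mem S.cn ha
  have sfd : ∀ {k : ℕ} {w : List ℕ}, SFr w → SFr (dl k w) := fun hw b hb => hw b (mem_dl.1 hb).1
  have hR1 : ∀ r ∈ R1, r ∈ R ∧ r ≠ 0 := fun r hr => ⟨by rw [eR]; simp [hr], fun h => n1 (h ▸ hr)⟩
  have hR2 : ∀ r ∈ R2, r ∈ R ∧ r ≠ 0 := fun r hr => ⟨by rw [eR]; simp [hr], fun h => n2 (h ▸ hr)⟩
  -- FUN
  have sx := sx_of S
  obtain ⟨⟨p1, U1, q1, e1, i1, i2, i3, i4, i5⟩, o0, oe⟩ := funx sx (fun r => sfd (hB r)) (sfd he) h1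
  have d3 : dl 3 [3] = [] := dl_P 3 1
  have eD : dl 3 (B 0) = (p ++ p') ++ 0 :: (U ++ 0 :: (q' ++ q)) := by
    have f : p ++ 3 :: (p' ++ 0 :: (U ++ 0 :: (q' ++ 3 :: q))) =
        p ++ ([3] ++ (p' ++ ([0] ++ (U ++ ([0] ++ (q' ++ ([3] ++ q))))))) := rfl
    rw [hB0, f]
    simp only [dl_app]
    rw [d3, dl_id np, dl_id np', dl_id nU, dl_id nq', dl_id nq, dl_id (u := [0]) (by decide)]
    simp
  have eD0 : dl 0 (B 0) = p ++ 3 :: ((dl 0 p' ++ (dl 0 U ++ dl 0 q')) ++ 3 :: dl 0 q) ∧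
      0 ∉ p ∧ 0 ∉ p' ∧ 0 ∉ U ∧ 0 ∉ q' ∧ 0 ∉ q ∧ (∀ a ∈ c, a ∈ U) ∧
      ∀ a ∈ p ++ (p' ++ (U ++ (q' ++ q))), a ∈ c := by
    have ee := eD.symm.trans e1
    have hcnt := congrArg (List.count 0) ee
    simp only [List.count_append, List.count_cons_self, List.count_eq_zero_of_not_mem i1,
      List.count_eq_zero_of_not_mem i2, List.count_eq_zero_of_not_mem i3] at hcnt
    have z1 : 0 ∉ p := List.count_eq_zero.1 (by omega)
    have z2 : 0 ∉ p' := List.count_eq_zero.1 (by omega)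
    have z3 : 0 ∉ U := List.count_eq_zero.1 (by omega)
    have z4 : 0 ∉ q' := List.count_eq_zero.1 (by omega)
    have z5 : 0 ∉ q := List.count_eq_zero.1 (by omega)
    have z12 : 0 ∉ p ++ p' := by
      rw [List.mem_append, not_or]
      exact ⟨z1, z2⟩
    obtain ⟨f1, f2⟩ := fst_uniq z12 i1 ee
    obtain ⟨f3, f4⟩ := fst_uniq z3 i2 f2
    refine ⟨?_, z1, z2, z3, z4, z5, by rw [f3]; exact i4, ?_⟩
    · have f : p ++ 3 :: (p' ++ 0 :: (U ++ 0 :: (q' ++ 3 :: q))) =
          p ++ ([3] ++ (p' ++ ([0] ++ (U ++ ([0] ++ (q' ++ ([3] ++ q))))))) := rfl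
      rw [hB0, f]
      simp only [dl_app]
      have d0 : dl 0 [0] = [] := dl_P 0 1
      rw [d0, dl_id z1, dl_id (u := [3]) (by decide)]
      simp
    · intro a ha
      apply i5
      rw [← f1, ← f3, ← f4]
      simp only [List.mem_append] at ha ⊢
      tauto
  obtain ⟨eD0, z1, z2, z3, z4, z5, hcU, hin⟩ := eD0
  rw [dl_id z2, dl_id z3, dl_id z4, dl_id z5] at eD0
  -- other blocks
  have h0B : ∀ r ∈ R, r ≠ 0 → 0 ∉ B r := by
    intro r hr hr0 h
    exact o0 r hr hr0 (mem_dl.2 ⟨h, by decide⟩)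
  have h0e : 0 ∉ e := fun h => oe (mem_dl.2 ⟨h, by decide⟩)
  have w1 := zsplit (M := (p ++ p') ++ 0 :: (U ++ 0 :: (q' ++ q))) (e := e)
    (F := fun r => dl 3 (B r)) eR n1 n2 eD (fun r hr hr0 => dl_id (h3 r hr hr0))
  have w2 := zsplit (M := p ++ 3 :: ((p' ++ (U ++ q')) ++ 3 :: q)) (e := e)
    (F := fun r => dl 0 (B r)) eR n1 n2 eD0 (fun r hr hr0 => dl_id (h0B r hr hr0))
  have hbs := bs S.wo S.cn S.pc (fun r => sfd (hB r)) (sfd he) h1
  rw [dl_id h3e] at h1
  rw [dl_id h0e] at h2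
  rw [w1] at h1
  rw [w2] at h2
  -- lights
  have hcntB : ∀ (r d : ℕ), (dl 3 (B r)).count (3 * d + 1) = (B r).count (3 * d + 1) := by
    intro r d
    unfold dl
    rw [List.count_filter (by simp; omega)]
  have hl0 : ∀ d < m, p.count (3 * d + 1) = 0 ∧ p'.count (3 * d + 1) = 0 ∧
      U.count (3 * d + 1) = 1 ∧ q'.count (3 * d + 1) = 0 ∧ q.count (3 * d + 1) = 0 := by
    intro d hd
    obtain ⟨r, _, _, _, k1, _⟩ := hbs.li d hd
    have k2 := k1 0 S.pc.z
    rw [if_pos (Or.inl rfl), eD] at k2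
    simp only [List.count_append, List.count_cons] at k2
    have k3 : ((0 : ℕ) == 3 * d + 1) = false := by
      rw [beq_eq_false_iff_ne]
      omega
    rw [k3] at k2
    have k4 := List.count_pos_iff.2 (hcU (3 * d + 1) (List.count_pos_iff.1 (by
      rw [S.cn.li d hd]
      omega)))
    simp only [Bool.false_eq_true, if_false] at k2
    omega
  have hplace : ∀ d < m, 3 * d + 1 ∈ Bw R1 B ∨ 3 * d + 1 ∈ Bw R2 B := by
    intro d hd
    obtain ⟨r, hr, hr0, _, k1, _⟩ := hbs.li d hd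
    have k2 := k1 r hr
    rw [if_pos (Or.inr rfl), hcntB] at k2
    have k3 : 3 * d + 1 ∈ B r := List.count_pos_iff.1 (by omega)
    rw [eR] at hr
    rcases List.mem_append.1 hr with h | h
    · exact Or.inl (MWE.H10.mem_bw.2 ⟨r, h, Or.inl k3⟩)
    · rcases List.mem_cons.1 h with h | h
      · exact absurd h hr0
      · exact Or.inr (MWE.H10.mem_bw.2 ⟨r, h, Or.inl k3⟩)
  have hcase : ∀ a ∈ c, Hm a = true ∨ ∃ d < m, a = 3 * d + 1 := by
    intro a ha
    rcases S.cn.lo a ha with h | h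
    · exact Or.inr h
    · exact Or.inl (hm_iff.2 h)
  have hvy : ∀ w : List ℕ, (∀ a ∈ w, a ∈ c) → (∀ d < m, w.count (3 * d + 1) = 0) →
      ∀ a ∈ w, Hm a = true := by
    intro w hw hz a ha
    rcases hcase a (hw a ha) with h | ⟨d, hd, rfl⟩
    · exact h
    · exact absurd ha (List.count_eq_zero.1 (hz d hd))
  have Hp : ∀ a ∈ p, Hm a = true := hvy p (fun a ha => hin a (by simp [ha]))
    (fun d hd => (hl0 d hd).1)
  have Hp' : ∀ a ∈ p', Hm a = true := hvy p' (fun a ha => hin a (by simp [ha]))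
    (fun d hd => (hl0 d hd).2.1)
  have Hq' : ∀ a ∈ q', Hm a = true := hvy q' (fun a ha => hin a (by simp [ha]))
    (fun d hd => (hl0 d hd).2.2.2.1)
  have Hq : ∀ a ∈ q, Hm a = true := hvy q (fun a ha => hin a (by simp [ha]))
    (fun d hd => (hl0 d hd).2.2.2.2)
  have hUc : ∀ a ∈ U, a ∈ c := fun a ha => hin a (by simp [ha])
  -- notation
  obtain ⟨V, hV⟩ : ∃ V, V = p' ++ (U ++ q') := ⟨_, rfl⟩
  have hVc : ∀ a ∈ V, a ∈ c := by
    intro a ha
    apply hin
    rw [hV] at ha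
    simp only [List.mem_append] at ha ⊢
    tauto
  have hV3 : 3 ∉ V := fun h => (hcm 3 (hVc 3 h)).2.1 rfl
  have hVl : ∀ d < m, V.count (3 * d + 1) = 1 := by
    intro d hd
    obtain ⟨-, k1, k2, k3, -⟩ := hl0 d hd
    rw [hV, List.count_append, List.count_append, k1, k2, k3]
  have hVU : ∀ a ∈ c, a ∈ V := fun a ha => by rw [hV]; simp [hcU a ha]
  rw [← hV] at h2
  have sfc : ∀ {w : List ℕ}, (∀ a ∈ w, a ∈ c) → SFr w := fun hw a ha => (hcm a (hw a ha)).2.2
  have sfp : SFr p := sfc (fun a ha => hin a (by simp [ha]))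
  have sfp' : SFr p' := sfc (fun a ha => hin a (by simp [ha]))
  have sfU : SFr U := sfc hUc
  have sfq' : SFr q' := sfc (fun a ha => hin a (by simp [ha]))
  have sfq : SFr q := sfc (fun a ha => hin a (by simp [ha]))
  have sfV : SFr V := sfc hVc
  have sP : ∀ k x, x % 3 ≠ 2 → SFr (P k x) := fun k x hx => sfr_P k x hx
  -- (A) `V` without both thin letters, `3` and powers inserted at the ends of the main block
  have hz0 : ∀ {T : List ℕ}, (∀ r ∈ T, r ∈ R ∧ r ≠ 0) → 0 ∉ Bw T B := by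
    intro T hT h
    obtain ⟨r, hr, h'⟩ := MWE.H10.mem_bw.1 h
    rcases h' with h' | h'
    · exact h0B r (hT r hr).1 (hT r hr).2 h'
    · omega
  have hz3 : ∀ {T : List ℕ}, (∀ r ∈ T, r ∈ R ∧ r ≠ 0) → 3 ∉ Bw T B := by
    intro T hT h
    obtain ⟨r, hr, h'⟩ := MWE.H10.mem_bw.1 h
    rcases h' with h' | h'
    · exact h3 r (hT r hr).1 (hT r hr).2 h'
    · omega
  have a1 : RR β (Bp R pl c) (Bw R1 B ++ ((p ++ (V ++ q)) ++ 2 :: (Bw R2 B ++ e))) := by
    have h := h1.filter (fun b => decide (b ≠ 0))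
    have g1 : (Bp R pl (0 :: (c ++ [0]))).filter (fun b => decide (b ≠ 0)) = Bp R pl c := by
      change dl 0 _ = _
      rw [hsp, hsp]
      have f : Bw R1 pl ++ (0 :: (c ++ [0]) ++ 2 :: Bw R2 pl) =
          Bw R1 pl ++ ([0] ++ (c ++ ([0] ++ ([2] ++ Bw R2 pl)))) := by simp
      rw [f]
      simp only [dl_app]
      rw [dl_id (fun h => no0_pl S.pc hR1 h (by omega)), dl_id (u := c) (fun h => (hcm 0 h).1 rfl),
        dl_id (u := [2]) (by decide), dl_id (fun h => no0_pl S.pc hR2 h (by omega))]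
      have d0 : dl 0 [0] = [] := dl_P 0 1
      rw [d0]
      simp
    have g2 : (Bw R1 B ++ (((p ++ p') ++ 0 :: (U ++ 0 :: (q' ++ q))) ++ 2 :: (Bw R2 B ++ e))).filter
        (fun b => decide (b ≠ 0)) = Bw R1 B ++ ((p ++ (V ++ q)) ++ 2 :: (Bw R2 B ++ e)) := by
      change dl 0 _ = _
      have f : Bw R1 B ++ (((p ++ p') ++ 0 :: (U ++ 0 :: (q' ++ q))) ++ 2 :: (Bw R2 B ++ e)) =
          Bw R1 B ++ (p ++ (p' ++ ([0] ++ (U ++ ([0] ++ (q' ++ (q ++ ([2] ++ (Bw R2 B ++ e))))))))) := by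
        simp
      rw [f]
      simp only [dl_app]
      have d0 : dl 0 [0] = [] := dl_P 0 1
      rw [d0, dl_id (hz0 hR1), dl_id z1, dl_id z2, dl_id z3, dl_id z4, dl_id z5,
        dl_id (u := [2]) (by decide), dl_id (hz0 hR2), dl_id h0e, hV]
      simp
    rw [g1, g2] at h
    exact h
  have a2 := ins2 S.pc eR n1 n2 (Dw n p ++ [3]) ([3] ++ Dw n q) (sfr_c S.cn)
    (sfr_app sfp (sfr_app sfV sfq)) hB he a1
  -- (B) absorption
  have b1 := ins2 S.pc eR n1 n2 (Dw n p) (Dw n q)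
    (sfr_app (u := P 1 0) (sP 1 0 (by omega)) (sfr_app (sfr_c S.cn) (sP 1 0 (by omega))))
    (sfr_app (sfr_app sfp sfp') (sfr_app (u := P 1 0) (sP 1 0 (by omega)) (sfr_app sfU
      (sfr_app (u := P 1 0) (sP 1 0 (by omega)) (sfr_app sfq' sfq))))) hB he h1
  have b2 := dh_rr (n := n) Hm b1
  have b3 : RR β (Helper96_MWV.DH n Hm (Bw R1 B ++ ((Dw n p ++ (((p ++ p') ++ 0 :: (U ++ 0 ::
      (q' ++ q))) ++ Dw n q)) ++ 2 :: (Bw R2 B ++ e))))
      (Helper96_MWV.DH n Hm (Bw R1 B ++ (((p ++ p') ++ 0 :: (U ++ 0 :: (q' ++ q))) ++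
        2 :: (Bw R2 B ++ e)))) := by
    have f1 : Bw R1 B ++ ((Dw n p ++ (((p ++ p') ++ 0 :: (U ++ 0 :: (q' ++ q))) ++ Dw n q)) ++
        2 :: (Bw R2 B ++ e)) = Bw R1 B ++ (Dw n p ++ ((p ++ p') ++ ((([0] ++ (U ++ [0]))) ++
          ((q' ++ q) ++ (Dw n q ++ (2 :: (Bw R2 B ++ e))))))) := by simp
    have f2 : Bw R1 B ++ (((p ++ p') ++ 0 :: (U ++ 0 :: (q' ++ q))) ++ 2 :: (Bw R2 B ++ e)) =
        Bw R1 B ++ ((p ++ p') ++ (([0] ++ (U ++ [0])) ++ ((q' ++ q) ++
          (2 :: (Bw R2 B ++ e))))) := by simp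
    rw [f1, f2]
    have hpp : ∀ a ∈ p ++ p', Hm a = true := by
      intro a ha
      rcases List.mem_append.1 ha with h | h
      · exact Hp a h
      · exact Hp' a h
    have hqq : ∀ a ∈ q' ++ q, Hm a = true := by
      intro a ha
      rcases List.mem_append.1 ha with h | h
      · exact Hq' a h
      · exact Hq a h
    have k1 := absorb S.wo hpp p (fun a ha => by simp [ha])
    have k2 := absorb_r S.wo hqq q (fun a ha => by simp [ha])
    rw [Helper96_MWV.DH_app (u := Bw R1 B), Helper96_MWV.DH_app (u := Dw n p),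
      Helper96_MWV.DH_app (u := p ++ p'), Helper96_MWV.DH_app (u := [0] ++ (U ++ [0])),
      Helper96_MWV.DH_app (u := q' ++ q), Helper96_MWV.DH_app (u := Dw n q),
      Helper96_MWV.DH_app (u := Bw R1 B), Helper96_MWV.DH_app (u := p ++ p'),
      Helper96_MWV.DH_app (u := [0] ++ (U ++ [0])), Helper96_MWV.DH_app (u := q' ++ q)]
    have k3 := (RR.refl (Helper96_MWV.DH n Hm (Bw R1 B))).append (k1.append
      ((RR.refl (Helper96_MWV.DH n Hm ([0] ++ (U ++ [0])))).append (k2.append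
        (RR.refl (Helper96_MWV.DH n Hm (2 :: (Bw R2 B ++ e)))))))
    simpa only [List.append_assoc] using k3
  have b4 := dh_v S.wo S.cn S.pc h1
  -- the word with `0` is equivalent to the word with powers at the ends
  have b5 : RR β (Bp R pl (0 :: (c ++ [0])))
      (Helper96_MWV.DH n Hm (Bp R pl (Dw n p ++ ((0 :: (c ++ [0])) ++ Dw n q)))) :=
    tr h1 (tr b4 (tr b3.symm b2.symm))
  -- rename
  have b6 := b5.sub ro
  have hDp0 : 0 ∉ Dw n p := fun h => z1 (dw_mem h)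
  have hDq0 : 0 ∉ Dw n q := fun h => z5 (dw_mem h)
  have hc0 : 0 ∉ c := fun h => (hcm 0 h).1 rfl
  have hp0 : ∀ {T : List ℕ}, (∀ r ∈ T, r ∈ R ∧ r ≠ 0) → 0 ∉ Bw T pl :=
    fun hT h => no0_pl S.pc hT h (by omega)
  have e7 : ∀ u w : List ℕ, 0 ∉ u → 0 ∉ w → (Bp R pl (u ++ ((0 :: (c ++ [0])) ++ w))).flatMap ro =
      Bp R pl (u ++ ((3 :: (c ++ [3])) ++ w)) := by
    intro u w hu hw
    rw [hsp, hsp, List.flatMap_append, List.flatMap_append, List.flatMap_append,
      List.flatMap_append, List.flatMap_cons (x := 2), List.flatMap_cons, List.flatMap_append,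
      ro_id _ (hp0 hR1), ro_id _ (hp0 hR2), ro_id u hu, ro_id w hw, ro_id c hc0]
    rfl
  have e8 := e7 [] [] (by simp) (by simp)
  rw [List.nil_append, List.append_nil, List.nil_append, List.append_nil] at e8
  rw [dh_ro, e7 _ _ hDp0 hDq0, e8] at b6
  -- (C) the two forms of the word with powers at the ends
  have f3 : (Dw n p ++ [3]) ++ (c ++ ([3] ++ Dw n q)) = Dw n p ++ ((3 :: (c ++ [3])) ++ Dw n q) := by
    simp
  rw [f3] at a2
  have a3 := tr b6 (dh_rr (n := n) Hm a2)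
  -- (D) moving the markers
  have hVb : ∀ b y : List ℕ, ∀ d : ℕ, V = b ++ d :: y →
      ((b.filter (fun a => !Hm a)).Nodup ∧ ∀ a ∈ b, Hm a = false → ∃ d' < m, a = 3 * d' + 1) ∧
      ((y.filter (fun a => !Hm a)).Nodup ∧ ∀ a ∈ y, Hm a = false → ∃ d' < m, a = 3 * d' + 1) := by
    intro b y d eV
    have key : ∀ w : List ℕ, (∀ a ∈ w, a ∈ V) → (∀ a, w.count a ≤ V.count a) →
        ((w.filter (fun a => !Hm a)).Nodup ∧ ∀ a ∈ w, Hm a = false → ∃ d' < m, a = 3 * d' + 1) := by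
      intro w hw hwc
      refine ⟨?_, ?_⟩
      · rw [List.nodup_iff_count_le_one]
        intro a
        by_cases ha : a ∈ w.filter (fun b => !Hm b)
        · rw [List.mem_filter] at ha
          rcases hcase a (hVc a (hw a ha.1)) with h | ⟨d', hd', rfl⟩
          · rw [h] at ha
            simp at ha
          · have k1 := hwc (3 * d' + 1)
            rw [hVl d' hd'] at k1
            exact le_trans (List.Sublist.count_le _ List.filter_sublist) k1
        · rw [List.count_eq_zero_of_not_mem ha]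
          omega
      · intro a ha hH
        rcases hcase a (hVc a (hw a ha)) with h | h
        · rw [h] at hH
          exact absurd hH (by simp)
        · exact h
    constructor
    · refine key b (fun a ha => by rw [eV]; simp [ha]) (fun a => ?_)
      rw [eV, List.count_append]
      omega
    · refine key y (fun a ha => by rw [eV]; simp [ha]) (fun a => ?_)
      rw [eV, List.count_append, List.count_cons]
      omega
  have m1 := moveL S.wo S.fl (Bw R1 B) (V ++ (q ++ 3 :: (Dw n q ++ 2 :: (Bw R2 B ++ e)))) p []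
    (by
      intro d hd
      refine ⟨Hp d hd, ?_⟩
      obtain ⟨b, y, eV⟩ := List.append_of_mem (hVU d (hin d (by simp [hd])))
      obtain ⟨⟨k1, k2⟩, -⟩ := hVb b y d eV
      refine ⟨b, y ++ (q ++ 3 :: (Dw n q ++ 2 :: (Bw R2 B ++ e))), by rw [eV]; simp,
        fun h => hV3 (by rw [eV]; simp [h]), by simp, k1, ?_⟩
      intro a ha hH
      obtain ⟨d', hd', rfl⟩ := k2 a ha hH
      rcases hplace d' hd' with h | h
      · exact Or.inl h
      · exact Or.inr (by simp [h]))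
  have m2 := moveR S.wo S.fl (Bw R1 B ++ (p ++ 3 :: V)) (2 :: (Bw R2 B ++ e)) q.length q [] rfl
    (by
      intro d hd
      refine ⟨Hq d hd, ?_⟩
      obtain ⟨y, b, eV⟩ := List.append_of_mem (hVU d (hin d (by simp [hd])))
      obtain ⟨-, ⟨k1, k2⟩⟩ := hVb y b d eV
      refine ⟨Bw R1 B ++ (p ++ 3 :: y), b, by rw [eV]; simp,
        fun h => hV3 (by rw [eV]; simp [h]), by simp, k1, ?_⟩
      intro a ha hH
      obtain ⟨d', hd', rfl⟩ := k2 a ha hH
      rcases hplace d' hd' with h | h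
      · exact Or.inl (by simp [h])
      · exact Or.inr (by simp [h]))
  have f4 : Bw R1 B ++ (((Dw n p ++ [3]) ++ ((p ++ (V ++ q)) ++ ([3] ++ Dw n q))) ++
      2 :: (Bw R2 B ++ e)) = Bw R1 B ++ ([] ++ (Dw n p ++ 3 :: (p ++ (V ++ (q ++ 3 ::
        (Dw n q ++ 2 :: (Bw R2 B ++ e))))))) := by simp
  have f5 : Bw R1 B ++ ([] ++ (p ++ 3 :: (V ++ (q ++ 3 :: (Dw n q ++ 2 :: (Bw R2 B ++ e)))))) =
      (Bw R1 B ++ (p ++ 3 :: V)) ++ (q ++ 3 :: (Dw n q ++ ([] ++ 2 :: (Bw R2 B ++ e)))) := by simp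
  have f6 : (Bw R1 B ++ (p ++ 3 :: V)) ++ 3 :: (q ++ ([] ++ 2 :: (Bw R2 B ++ e))) =
      Bw R1 B ++ ((p ++ 3 :: (V ++ 3 :: q)) ++ 2 :: (Bw R2 B ++ e)) := by simp
  rw [f4] at a3
  rw [f5] at m1
  rw [f6] at m2
  have a4 := tr a3 (tr m1 m2)
  -- (E) thickness
  have t1 := lf_thick S hc hal hnd
  have t2 : RR β (Bw R1 B ++ ((p ++ 3 :: (V ++ 3 :: q)) ++ 2 :: (Bw R2 B ++ e)))
      (Helper96_MWV.hv n 3 (Bw R1 B ++ ((p ++ 3 :: (V ++ 3 :: q)) ++ 2 :: (Bw R2 B ++ e)))) :=
    tr h2.symm (tr t1 (hv_rr 3 h2))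
  have t3 := dh_rr (n := n) Hm t2
  rw [dh_hv3] at t3
  have t4 : RR β (Bp R pl (3 :: (c ++ [3]))) (Helper96_MWV.hv n 3 (Bp R pl (3 :: (c ++ [3])))) :=
    tr a4 (tr t3 (hv_rr 3 a4.symm))
  have hc3 : 3 ∉ c := fun h => (hcm 3 h).2.1 rfl
  have h33 : ∀ {T : List ℕ}, (∀ r ∈ T, r ∈ R ∧ r ≠ 0) → 3 ∉ Bw T pl :=
    fun hT h => no0_pl S.pc hT h (by omega)
  have e9 : Helper96_MWV.hv n 3 (Bp R pl (3 :: (c ++ [3]))) =
      Bp R pl (P (n + 1) 3 ++ (c ++ P (n + 1) 3)) := by
    rw [hsp, hsp]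
    have f : Bw R1 pl ++ (3 :: (c ++ [3]) ++ 2 :: Bw R2 pl) =
        Bw R1 pl ++ ([3] ++ (c ++ ([3] ++ ([2] ++ Bw R2 pl)))) := by simp
    rw [f]
    simp only [Helper96_MWV.hv_app]
    rw [Helper96_MWV.hv_one, Helper96_MWV.hv_id n 3 _ (h33 hR1), Helper96_MWV.hv_id n 3 _ hc3,
      Helper96_MWV.hv_id n 3 [2] (by decide), Helper96_MWV.hv_id n 3 _ (h33 hR2)]
    simp
  rw [e9] at t4
  have t5 := t4.sub r3
  have eP3 : ∀ k : ℕ, (P k 3).flatMap r3 = P k 0 := by
    intro k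
    induction k with
    | zero => rfl
    | succ k ih =>
      have e : P (k + 1) 3 = 3 :: P k 3 := List.replicate_succ
      rw [e, List.flatMap_cons, ih]
      rfl
  have e10 : (Bp R pl (3 :: (c ++ [3]))).flatMap r3 = Bp R pl (0 :: (c ++ [0])) := by
    rw [hsp, hsp, List.flatMap_append, List.flatMap_append, List.flatMap_cons (x := 2),
      List.flatMap_cons, List.flatMap_append, r3_id _ (h33 hR1), r3_id _ (h33 hR2), r3_id c hc3]
    rfl
  have e11 : (Bp R pl (P (n + 1) 3 ++ (c ++ P (n + 1) 3))).flatMap r3 =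
      Bp R pl (P (n + 1) 0 ++ (c ++ P (n + 1) 0)) := by
    rw [hsp, hsp, List.flatMap_append, List.flatMap_append, List.flatMap_cons (x := 2),
      List.flatMap_append, List.flatMap_append, r3_id _ (h33 hR1), r3_id _ (h33 hR2),
      r3_id c hc3, eP3]
    rfl
  rw [e10, e11] at t5
  exact S.no t5

end Pool.Agent.MWT.H11
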