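import Pool.Agent.Helper96_MWT.TG3
import Pool.Agent.Helper11_MWT.NES2

/-!
# Squad MWT, row TG3 with the proved form of NES

Copy of `Helper96_MWT/TG3.lean` (helper96) where NES is applied to factors which do not cut the blocks.
-/

set_option autoImplicit false

namespace Pool.Agent.MWT.H11b

open Pool.Agent.Helper14_MV Pool.Agent.Helper2_MV Pool.Agent.MVD Pool.Agent.MWT Pool.Agent.MWT.H96

variable {β : FIC}

theorem core11 (hThx : ThxStmt) (hPjb : PjbStmt) (hTg2 : Tg2Stmt)
    (n m : ℕ) (R c : List ℕ) (B : ℕ → List ℕ) (t : List ℕ) (e f : ℕ) (S : S7 n β m R c)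
    (hB : ∀ r, SFr (B r)) (ht : SFr t)
    (hloc : ∀ a ∈ Bw (R7 R) B ++ t, a % 3 = 0 → a = 0 ∨ a = 3 ∨ a = 6 ∨ 42 ≤ a)
    (he : e = 0 ∨ e = 3 ∨ e = 6) (hf : f = 0 ∨ f = 3 ∨ f = 6) (hef : e ≠ f)
    (hK : Kp n β R c (fun a => a = e ∨ a = f) (Bw (R7 R) B ++ t))
    (p p' U q' q : List ℕ) (hB0 : B 0 = p ++ f :: (p' ++ e :: (U ++ e :: (q' ++ f :: q))))
    (κ : ℕ → ℕ) (hκ : ∀ d < m, κ (3 * d + 1) < 7) (A C A2 : List ℕ) (hc : c = A ++ (C ++ A2))
    (hal : ∀ a ∈ A ++ A2, a ∉ C) (hnd : nd C < nd c) (h1 : (Lw 1 1 c).flatMap (pj e 1 κ) = 0 :: (c ++ [0]))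
    (h2 : (Lw 1 1 c).flatMap (pj f 1 κ) = A ++ 0 :: (C ++ 0 :: A2)) : False := by
  obtain ⟨b1, b2, -⟩ := hPjb e f κ
  obtain ⟨hPl, hTh⟩ := hThx n β m R c κ S.cn S.pR hκ
  have hSt : St n β m (R7 R) (plk κ) c :=
    { wo := S.wo, lt := S.lt, h2 := S.h2, fl := S.fl, cn := S.cn, m1 := S.m1, k2 := S.k2,
      pc := hPl, no := fun h => S.no (hTh h) }
  obtain ⟨cf, nf, tf, -⟩ := hTg2 n β m R c B t f S hB ht hloc hf
    (fun a ha κ' => hK a (Or.inr ha) κ')
  have c0 : ∀ a ∈ c, a ≠ 0 := by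
    intro a ha
    rcases S.cn.lo a ha with ⟨d, -, h⟩ | ⟨-, h⟩
    · omega
    · omega
  -- the projected word
  have eV : ∀ (x y : ℕ), (sh n (Bw (R7 R) B ++ t)).flatMap (pj x y κ) =
      Bw (R7 R) (fun r => (sh n (B r)).flatMap (pj x y κ)) ++ (sh n t).flatMap (pj x y κ) := by
    intro x y
    rw [sh_app, sh_bw]
    exact (hPjb x y κ).1 (R7 R) (fun r => sh n (B r)) (sh n t)
  -- first identity
  have i1 := hK e (Or.inl rfl) κ
  have i1' : RR β (Bp (R7 R) (plk κ) (0 :: (c ++ [0])))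
      (Bw (R7 R) (fun r => dl 3 ((sh n (B r)).flatMap (pj e f κ))) ++
        dl 3 ((sh n t).flatMap (pj e f κ))) := by
    unfold Ww at i1
    rw [(hPjb e 1 κ).2.2, h1, eV] at i1
    have e1 : ∀ w : List ℕ, dl 3 (w.flatMap (pj e f κ)) = w.flatMap (pj e 1 κ) := by
      intro w
      rw [dl_flat]
      exact List.flatMap_congr (fun a _ => dl3_pj e f κ hf hef a)
    simp only [e1]
    exact i1
  -- second identity
  have i2 := (hK f (Or.inr rfl) κ).sub r03
  have i2' : RR β (Bp (R7 R) (plk κ) (A ++ 3 :: (C ++ 3 :: A2)))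
      (Bw (R7 R) (fun r => dl 0 ((sh n (B r)).flatMap (pj e f κ))) ++
        dl 0 ((sh n t).flatMap (pj e f κ))) := by
    unfold Ww at i2
    rw [(hPjb f 1 κ).2.2, h2, eV, List.flatMap_append] at i2
    have e1 : ∀ w : List ℕ, dl 0 (w.flatMap (pj e f κ)) = (w.flatMap (pj f 1 κ)).flatMap r03 := by
      intro w
      rw [dl_flat, List.flatMap_assoc]
      exact List.flatMap_congr (fun a _ => dl0_pj e f κ he hf hef a)
    simp only [e1]
    have hr : ∀ r, r03 (3 * r + 2) = [3 * r + 2] := by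
      intro r
      unfold r03
      rw [if_neg (by omega)]
    rw [bw_flat r03 hr] at i2
    have e2 : (Bp (R7 R) (plk κ) (A ++ 0 :: (C ++ 0 :: A2))).flatMap r03 =
        Bp (R7 R) (plk κ) (A ++ 3 :: (C ++ 3 :: A2)) := by
      unfold Bp
      rw [bw_flat r03 hr]
      refine bw_ext _ _ _ (fun r _ => ?_)
      by_cases h0 : r = 0
      · rw [if_pos h0, if_pos h0]
        have hA : 0 ∉ A := fun h => c0 0 (by rw [hc]; simp [h]) rfl
        have hC : 0 ∉ C := fun h => c0 0 (by rw [hc]; simp [h]) rfl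
        have hA2 : 0 ∉ A2 := fun h => c0 0 (by rw [hc]; simp [h]) rfl
        rw [List.flatMap_append, List.flatMap_cons, List.flatMap_append, List.flatMap_cons,
          r03_id A hA, r03_id C hC, r03_id A2 hA2]
        rfl
      · rw [if_neg h0, if_neg h0]
        refine r03_id _ ?_
        unfold plk
        split_ifs
        · rw [List.mem_singleton]; omega
        · simp
    rw [e2] at i2
    exact i2
  -- no `3` outside block `0`
  have n3 : ∀ w : List ℕ, f ∉ w → 3 ∉ (sh n w).flatMap (pj e f κ) := by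
    intro w hw h
    rw [List.mem_flatMap] at h
    obtain ⟨a, ha, h'⟩ := h
    exact hw ((pj_3 h') ▸ sh_mem ha)
  have hcnt := cf
  rw [hB0] at hcnt
  simp only [List.count_append, List.count_cons, beq_self_eq_true, if_true] at hcnt
  have np : f ∉ p := fun h => by
    have := List.count_pos_iff.2 h
    omega
  have np' : f ∉ p' := fun h => by
    have := List.count_pos_iff.2 h
    omega
  have nU : f ∉ U := fun h => by
    have := List.count_pos_iff.2 h
    omega
  have nq' : f ∉ q' := fun h => by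
    have := List.count_pos_iff.2 h
    omega
  have nq : f ∉ q := fun h => by
    have := List.count_pos_iff.2 h
    omega
  have sfV : ∀ w : List ℕ, SFr w → SFr ((sh n w).flatMap (pj e f κ)) := by
    intro w hw
    refine b2 (sh n w) ?_
    intro a ha
    exact hw a (sh_mem ha)
  refine Pool.Agent.MWT.H11.nes2 (A := A) (C := C) (A2 := A2)
    (B := fun r => (sh n (B r)).flatMap (pj e f κ))
    (e := (sh n t).flatMap (pj e f κ)) hSt hc hal hnd (fun r => sfV _ (hB r)) (sfV _ ht) i1' i2'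
    (fun r hr hr0 => n3 _ (nf r hr hr0)) (n3 _ tf) (p := (sh n p).flatMap (pj e f κ))
    (p' := (sh n p').flatMap (pj e f κ)) (U := (sh n U).flatMap (pj e f κ))
    (q' := (sh n q').flatMap (pj e f κ)) (q := (sh n q).flatMap (pj e f κ)) ?_ (n3 _ np)
    (n3 _ np') (n3 _ nU) (n3 _ nq') (n3 _ nq)
  change (sh n (B 0)).flatMap (pj e f κ) = _
  rw [hB0, sh_app, sh_cons_lt n f _ (by omega), sh_app, sh_cons_lt n e _ (by omega), sh_app,
    sh_cons_lt n e _ (by omega), sh_app, sh_cons_lt n f _ (by omega), List.flatMap_append,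
    List.flatMap_cons, List.flatMap_append, List.flatMap_cons, List.flatMap_append,
    List.flatMap_cons, List.flatMap_append, List.flatMap_cons, pj_e e f κ he, pj_f e f κ hf hef]
  rfl

/-- row TG3 -/
theorem tg3b (hThx : ThxStmt) (hPjb : PjbStmt)
    (hPjl : PjlStmt) (_hPer : PerStmt) (hSpc : SpcStmt) (hTg2 : Tg2Stmt) : Tg3Stmt := by
  intro n β m R c B t e f S hB ht hloc he hf hef hK p p' U q' q hB0
  obtain ⟨s1, s2⟩ := hSpc n m c S.cn S.m1
  obtain ⟨-, le2, le3⟩ := hPjl n m c e S.cn he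
  obtain ⟨-, lf2, lf3⟩ := hPjl n m c f S.cn hf
  have hpo : po e < po f ∨ po f < po e := by
    rcases he with rfl | rfl | rfl <;> rcases hf with rfl | rfl | rfl <;>
      first | exact absurd rfl hef | decide
  have hpe : po e ≤ 3 := by rcases he with rfl | rfl | rfl <;> decide
  have hpf : po f ≤ 3 := by rcases hf with rfl | rfl | rfl <;> decide
  rcases hpo with hlt | hlt
  · obtain ⟨A, C, hc, hAC, hnd⟩ := s1
    refine core11 hThx hPjb hTg2 n m R c B t e f S hB ht hloc he hf hef hK p p' U q' q hB0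
      (fun a => if a ∈ A then po e else 3) (fun d _ => ?_) A C [] (by rw [List.append_nil]; exact hc)
      (fun a ha => hAC a (by rw [List.append_nil] at ha; exact ha)) hnd ?_ ?_
    · split_ifs <;> omega
    · rw [le2 A C (po e) hc hAC (by omega), if_pos le_rfl]
    · rw [lf2 A C (po e) hc hAC (by omega), if_neg (by omega)]
  · obtain ⟨C, A, hc, hAC, hnd⟩ := s2
    refine core11 hThx hPjb hTg2 n m R c B t e f S hB ht hloc he hf hef hK p p' U q' q hB0
      (fun a => if a ∈ A then po f + 4 else 3) (fun d _ => ?_) [] C A hc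
      (fun a ha => hAC a (by rw [List.nil_append] at ha; exact ha)) hnd ?_ ?_
    · split_ifs <;> omega
    · rw [le3 C A (po f + 4) hc hAC (by omega) (by omega), if_pos (by omega)]
    · rw [lf3 C A (po f + 4) hc hAC (by omega) (by omega), if_neg (by omega)]
      rfl

end Pool.Agent.MWT.H11b
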